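import Pool.Agent.TH437.SP.Two

/-!
# Spiders with one or two subdivided edges: perfect colourings
-/

set_option autoImplicit false
set_option linter.unusedSectionVars false

namespace Pool.Agent.TH437.SP

open Finset

section
variable {V K : Type} [Fintype V] [DecidableEq V] {c : V → V → K} {v : V}

/-- the four-cycle property -/
def Quad (c : V → V → K) : Prop :=
  ∀ v b1 b2 a1 a2, b1 ≠ v → b2 ≠ v → b1 ≠ b2 → a1 ≠ b1 → a2 ≠ b2 →
    c b1 a1 = c v b2 → c b2 a2 = c v b1 → a1 = a2

theorem pow_two_of_quad (hc : PC c) (v₀ : V)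
    (hfull : ∀ x y u, x ≠ y → Old c u (c x y)) (hquad : Quad c) :
    ∃ k, Fintype.card V = 2 ^ k := by
  classical
  have hex : ∀ (u : {u : V // u ≠ v₀}) (x : V), ∃ y, y ≠ x ∧ c x y = c v₀ u.1 := fun u x =>
    hfull v₀ u.1 x u.2.symm
  choose f hf1 hf2 using hex
  have hinv : ∀ u, Function.Involutive (f u) := by
    intro u x
    refine hc.proper (f u x) (f u (f u x)) x (hf1 u (f u x)).symm (hf1 u x) ?_
    rw [hf2 u (f u x), hc.symm (f u x) x, hf2 u x]
  set σ : {u : V // u ≠ v₀} → Equiv.Perm V := fun u => (hinv u).toPerm with hσ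
  have hσa : ∀ u x, σ u x = f u x := fun u x => rfl
  have hcomm : ∀ x ∈ Set.range σ, ∀ y ∈ Set.range σ, x * y = y * x := by
    rintro _ ⟨u, rfl⟩ _ ⟨w, rfl⟩
    by_cases huw : u = w
    · rw [huw]
    ext x
    rw [Equiv.Perm.mul_apply, Equiv.Perm.mul_apply, hσa, hσa, hσa, hσa]
    have hb : f u x ≠ f w x := by
      intro h
      apply huw
      have h1 : c v₀ u.1 = c v₀ w.1 := by rw [← hf2 u x, ← hf2 w x, h]
      exact Subtype.ext (hc.proper v₀ u.1 w.1 u.2.symm w.2.symm h1)
    have h2 := hquad x (f u x) (f w x) (f w (f u x)) (f u (f w x)) (hf1 u x) (hf1 w x) hb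
      (hf1 w (f u x)) (hf1 u (f w x)) (by rw [hf2 w (f u x), hf2 w x])
      (by rw [hf2 u (f w x), hf2 u x])
    exact h2.symm
  set G : Subgroup (Equiv.Perm V) := Subgroup.closure (Set.range σ) with hG
  have hcG : IsMulCommutative G := Subgroup.isMulCommutative_closure hcomm
  have hsq : ∀ g ∈ G, g * g = 1 := by
    intro g hg
    rw [hG] at hg
    induction hg using Subgroup.closure_induction with
    | mem x hx =>
      obtain ⟨u, rfl⟩ := hx
      ext x
      rw [Equiv.Perm.mul_apply, hσa, hσa, hinv u x]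
      rfl
    | one => simp
    | mul x y hx hy h1 h2 =>
      have h3 : x * y = y * x := setLike_mul_comm (s := G) hx hy
      calc x * y * (x * y) = x * y * (y * x) := by rw [← h3]
        _ = x * (y * y) * x := by group
        _ = 1 := by rw [h2, mul_one, h1]
    | inv x hx h1 =>
      have : x⁻¹ * x⁻¹ = (x * x)⁻¹ := by group
      rw [this, h1, inv_one]
  have hp : IsPGroup 2 G := by
    intro g
    refine ⟨1, ?_⟩
    rw [pow_one, pow_two]
    exact Subtype.ext (hsq g.1 g.2)
  have : Fact (Nat.Prime 2) := ⟨Nat.prime_two⟩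
  obtain ⟨k, hk⟩ := hp.card_orbit v₀
  refine ⟨k, ?_⟩
  have horb : MulAction.orbit G v₀ = Set.univ := by
    ext x
    simp only [Set.mem_univ, iff_true]
    by_cases hx : x = v₀
    · rw [hx]; exact MulAction.mem_orbit_self _
    · refine ⟨⟨σ ⟨x, hx⟩, Subgroup.subset_closure ⟨_, rfl⟩⟩, ?_⟩
      change σ ⟨x, hx⟩ v₀ = x
      rw [hσa]
      exact hc.proper v₀ _ x (hf1 ⟨x, hx⟩ v₀).symm (Ne.symm hx) (hf2 ⟨x, hx⟩ v₀)
  rw [horb, Nat.card_univ, Nat.card_eq_fintype_card] at hk
  exact hk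

theorem two_of_not_quad (hc : PC c) (h : ¬ Quad c) :
    ∃ (v : V) (P : Finset (V × V)), Closed c v P ∧ P.card = 2 := by
  unfold Quad at h
  push Not at h
  obtain ⟨v, b1, b2, a1, a2, h1, h2, h3, h4, h5, h6, h7, h8⟩ := h
  have ha1v : a1 ≠ v := by
    rintro rfl
    exact h3 (hc.proper a1 b1 b2 h1.symm h2.symm (by rw [hc.symm a1 b1, h6]))
  have ha2v : a2 ≠ v := by
    rintro rfl
    exact h3 (hc.proper a2 b1 b2 h1.symm h2.symm (by rw [← h7, hc.symm a2 b2]))
  have h9 : b1 ≠ a2 := by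
    rintro rfl
    exact h2 (hc.proper b1 b2 v h3 h1 (by rw [hc.symm b1 b2, h7, hc.symm]))
  have h10 : a1 ≠ b2 := by
    rintro rfl
    exact h1 (hc.proper a1 b1 v h3.symm h2 (by rw [hc.symm a1 b1, h6, hc.symm]))
  have hcol : c b1 a1 ≠ c b2 a2 := by
    rw [h6, h7]
    intro h
    exact h3 (hc.proper v b2 b1 h2.symm h1.symm h).symm
  obtain ⟨g1, g2⟩ := closed_two (c := c) (v := v) (x := b1) (y := a1) (p := b2) (q := a2)
    h1 ha1v h2 ha2v h4.symm h5.symm h3 h9 h10 h8 hcol (fun _ => Or.inr h6) (fun _ => Or.inl h7)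
  exact ⟨v, _, g1, g2⟩

/-- `t = 2`, large order which is not a power of two -/
theorem two_exists (hc : PC c) (hn : 30 ≤ Fintype.card V) (h2 : ∀ k, Fintype.card V ≠ 2 ^ k) :
    ∃ (v : V) (P : Finset (V × V)), Closed c v P ∧ P.card = 2 := by
  by_cases hfull : ∀ x y u, x ≠ y → Old c u (c x y)
  · refine two_of_not_quad hc ?_
    intro hq
    have : Nonempty V := Fintype.card_pos_iff.1 (by omega)
    obtain ⟨k, hk⟩ := pow_two_of_quad hc (Classical.arbitrary V) hfull hq
    exact h2 k hk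
  · push Not at hfull
    obtain ⟨x, y, u, hxy, hu⟩ := hfull
    have hx : x ≠ u := by
      rintro rfl
      exact hu ⟨y, hxy.symm, rfl⟩
    have hy : y ≠ u := by
      rintro rfl
      exact hu ⟨x, hxy, hc.symm _ _⟩
    exact two_missing hc hn hx hy hxy hu

end

section
variable {V K : Type} [Fintype V] [DecidableEq V] {C : Sym2 V → K}

/-- every colour appears at every vertex -/
def FullC (C : Sym2 V → K) : Prop := ∀ x y u, x ≠ y → ∃ w, w ≠ u ∧ C s(u, w) = C s(x, y)

theorem label_in (hC : ProperColouring C) (hfull : FullC C) {T : SimpleGraph V} {v : V}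
    {B : Finset V} {m : V → V} (hv : v ∉ B) (hm : ∀ b ∈ B, m b ≠ v ∧ m b ∉ B)
    (hT : ∀ x y, T.Adj x y ↔ ((x = v ∧ y ≠ v ∧ y ∉ B) ∨ (y = v ∧ x ≠ v ∧ x ∉ B) ∨
      (x ∈ B ∧ y = m x) ∨ (y ∈ B ∧ x = m y))) (hR : Rainbow C T) :
    ∀ b ∈ B, ∃ u ∈ B, u ≠ b ∧ C s(b, m b) = C s(v, u) := by
  intro b hb
  have hbm : b ≠ m b := fun h => (hm b hb).2 (h ▸ hb)
  have hbv : b ≠ v := fun h => hv (h ▸ hb)
  obtain ⟨u, hu, hcol⟩ := hfull b (m b) v hbm
  have hadj : T.Adj b (m b) := (hT _ _).2 (Or.inr (Or.inr (Or.inl ⟨hb, rfl⟩)))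
  by_cases huB : u ∈ B
  · refine ⟨u, huB, ?_, hcol.symm⟩
    rintro rfl
    refine hC u v (m u) hbv hbm (hm u hb).1.symm ?_
    rw [Sym2.eq_swap (a := u) (b := v), hcol]
  · exfalso
    have hadj2 : T.Adj v u := (hT _ _).2 (Or.inl ⟨rfl, hu, huB⟩)
    have h1 := hR s(v, u) hadj2 s(b, m b) hadj hcol
    rw [Sym2.eq_iff] at h1
    rcases h1 with ⟨h1, _⟩ | ⟨h1, _⟩
    · exact hbv h1.symm
    · exact (hm b hb).1 h1.symm

theorem no_one (hC : ProperColouring C) (hfull : FullC C) (v : V) (T : SimpleGraph V)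
    (h : IsSpider T v 1) (hR : Rainbow C T) : False := by
  obtain ⟨B, m, hB, hv, hm, _, hT⟩ := h
  obtain ⟨b, hb⟩ := Finset.card_eq_one.1 hB
  obtain ⟨u, hu, hub, _⟩ := label_in hC hfull hv hm hT hR b (by rw [hb]; simp)
  rw [hb, Finset.mem_singleton] at hu
  exact hub hu

theorem no_two (hC : ProperColouring C) (hfull : FullC C) (hq : Quad (fun x y => C s(x, y)))
    (v : V) (T : SimpleGraph V) (h : IsSpider T v 2) (hR : Rainbow C T) : False := by
  obtain ⟨B, m, hB, hv, hm, hinj, hT⟩ := h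
  obtain ⟨b1, b2, h12, hb⟩ := Finset.card_eq_two.1 hB
  have hb1 : b1 ∈ B := by rw [hb]; simp
  have hb2 : b2 ∈ B := by rw [hb]; simp
  obtain ⟨u1, hu1, hub1, hc1⟩ := label_in hC hfull hv hm hT hR b1 hb1
  obtain ⟨u2, hu2, hub2, hc2⟩ := label_in hC hfull hv hm hT hR b2 hb2
  rw [hb, Finset.mem_insert, Finset.mem_singleton] at hu1 hu2
  have e1 : u1 = b2 := by
    rcases hu1 with h | h
    · exact absurd h hub1
    · exact h
  have e2 : u2 = b1 := by
    rcases hu2 with h | h
    · exact h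
    · exact absurd h hub2
  subst e1 e2
  have h3 := hq v u2 u1 (m u2) (m u1) (fun h => hv (h ▸ hb1)) (fun h => hv (h ▸ hb2)) h12
    (fun h => (hm u2 hb1).2 (by rw [h]; exact hb1)) (fun h => (hm u1 hb2).2 (by rw [h]; exact hb2))
    hc1 hc2
  exact h12 (hinj u2 hb1 u1 hb2 h3)

end

/-- transport of a colouring along a bijection -/
theorem transport {W K : Type} (n : ℕ) (φ : Fin n ≃ W) (c : W → W → K) (hc : PC c)
    (hfull : ∀ x y u, x ≠ y → Old c u (c x y)) :
    ∃ C : Sym2 (Fin n) → K, ProperColouring C ∧ FullC C ∧ (∀ i j, C s(i, j) = c (φ i) (φ j)) := by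
  let C : Sym2 (Fin n) → K := Sym2.lift ⟨fun i j => c (φ i) (φ j), fun i j => hc.symm _ _⟩
  have hC : ∀ i j, C s(i, j) = c (φ i) (φ j) := fun i j => rfl
  refine ⟨C, ?_, ?_, hC⟩
  · intro x y z h1 h2 h3 h
    rw [hC, hC] at h
    exact h3 (φ.injective (hc.proper (φ x) (φ y) (φ z) (fun h => h1 (φ.injective h))
      (fun h => h2 (φ.injective h)) h))
  · intro x y u hxy
    obtain ⟨w, hw, h⟩ := hfull (φ x) (φ y) (φ u) (fun h => hxy (φ.injective h))
    refine ⟨φ.symm w, ?_, ?_⟩
    · intro h1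
      exact hw (by rw [← h1]; simp)
    · rw [hC, hC, Equiv.apply_symm_apply, h]

/-- the round robin colouring -/
theorem exists_even (n : ℕ) (hn : Even n) (h2 : 2 ≤ n) :
    ∃ C : Sym2 (Fin n) → ZMod (n - 1), ProperColouring C ∧ FullC C := by
  classical
  obtain ⟨j, hj⟩ := hn
  have : NeZero (n - 1) := ⟨by omega⟩
  have hcop : Nat.Coprime 2 (n - 1) := by
    rw [Nat.coprime_two_left]
    exact ⟨j - 1, by omega⟩
  have hinj2 : ∀ x y : ZMod (n - 1), x + x = y + y → x = y := by
    intro x y h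
    have h1 : IsUnit ((2 : ℕ) : ZMod (n - 1)) := (ZMod.isUnit_iff_coprime 2 (n - 1)).2 hcop
    have h3 : ((2 : ℕ) : ZMod (n - 1)) * x = ((2 : ℕ) : ZMod (n - 1)) * y := by
      push_cast
      rw [two_mul, two_mul, h]
    exact h1.mul_left_cancel h3
  have hsurj : ∀ γ : ZMod (n - 1), ∃ x, x + x = γ := by
    have hi : Function.Injective (fun x : ZMod (n - 1) => x + x) := fun x y h => hinj2 x y h
    exact (Finite.injective_iff_surjective.1 hi)
  let c : Option (ZMod (n - 1)) → Option (ZMod (n - 1)) → ZMod (n - 1) := fun x y =>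
    match x, y with
    | some x, some y => x + y
    | some x, none => x + x
    | none, some y => y + y
    | none, none => 0
  have hc : PC c := by
    refine ⟨?_, ?_⟩
    · rintro (_ | x) (_ | y)
      · rfl
      · rfl
      · rfl
      · exact add_comm x y
    · rintro (_ | x) (_ | y) (_ | z) h1 h3 h
      · rfl
      · exact absurd rfl h1
      · exact absurd rfl h3
      · exact congrArg some (hinj2 y z h)
      · rfl
      · exact absurd (congrArg some (add_left_cancel (a := x) h)) h3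
      · exact absurd (congrArg some (add_left_cancel (a := x) h).symm) h1
      · exact congrArg some (add_left_cancel (a := x) h)
  have hfull : ∀ x y u, x ≠ y → Old c u (c x y) := by
    intro x y u _
    generalize c x y = γ
    rcases u with _ | u
    · obtain ⟨w, hw⟩ := hsurj γ
      exact ⟨some w, by simp, hw⟩
    · by_cases h : γ = u + u
      · exact ⟨none, by simp, h.symm⟩
      · refine ⟨some (γ - u), ?_, ?_⟩
        · intro h1
          have h3 : γ - u = u := Option.some_injective _ h1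
          exact h (by rw [← sub_eq_iff_eq_add.1 h3])
        · change u + (γ - u) = γ
          ring
  have hcard : Fintype.card (Fin n) = Fintype.card (Option (ZMod (n - 1))) := by
    rw [Fintype.card_fin, Fintype.card_option, ZMod.card]
    omega
  obtain ⟨C, h1, h3, _⟩ := transport n (Fintype.equivOfCardEq hcard) c hc hfull
  exact ⟨C, h1, h3⟩

/-- the colouring of an elementary abelian two-group -/
theorem exists_pow (n k : ℕ) (hn : n = 2 ^ k) :
    ∃ C : Sym2 (Fin n) → (Fin k → ZMod 2), ProperColouring C ∧ FullC C ∧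
      Quad (fun x y => C s(x, y)) := by
  classical
  let c : (Fin k → ZMod 2) → (Fin k → ZMod 2) → (Fin k → ZMod 2) := fun x y => x + y
  have h2 : ∀ x : Fin k → ZMod 2, x + x = 0 := by
    intro x; funext i; exact CharTwo.add_self_eq_zero (x i)
  have hc : PC c := ⟨fun x y => add_comm x y, fun x y z _ _ h => add_left_cancel (a := x) h⟩
  have hfull : ∀ x y u, x ≠ y → Old c u (c x y) := by
    intro x y u hxy
    refine ⟨u + (x + y), ?_, ?_⟩
    · intro h
      have h3 : x + y = 0 := by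
        have : u + (x + y) = u + 0 := by rw [h, add_zero]
        exact add_left_cancel this
      apply hxy
      calc x = x + (y + y) := by rw [h2, add_zero]
        _ = (x + y) + y := by rw [add_assoc]
        _ = y := by rw [h3, zero_add]
    · change u + (u + (x + y)) = x + y
      rw [← add_assoc, h2, zero_add]
  have hcard : Fintype.card (Fin n) = Fintype.card (Fin k → ZMod 2) := by
    rw [Fintype.card_fin, Fintype.card_fun, ZMod.card, Fintype.card_fin, hn]
  obtain ⟨C, h1, h3, h4⟩ := transport n (Fintype.equivOfCardEq hcard) c hc hfull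
  refine ⟨C, h1, h3, ?_⟩
  intro v b1 b2 a1 a2 _ _ _ _ _ h5 h6
  simp only [h4] at h5 h6
  set φ := Fintype.equivOfCardEq hcard
  change φ b1 + φ a1 = φ v + φ b2 at h5
  change φ b2 + φ a2 = φ v + φ b1 at h6
  apply φ.injective
  have e1 : φ a1 = φ b1 + (φ v + φ b2) := by rw [← h5, ← add_assoc, h2, zero_add]
  have e2 : φ a2 = φ b2 + (φ v + φ b1) := by rw [← h6, ← add_assoc, h2, zero_add]
  rw [e1, e2]
  abel

end Pool.Agent.TH437.SP
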