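import Pool.Agent.TH437.SP.Final
import Pool.Agent.TH437.SP.Two2

/-!
# Good pairs
-/

set_option autoImplicit false
set_option linter.unusedSectionVars false

namespace Pool.Agent.TH437.SP

open Finset

/-- the pair `(n, t)` is good: every proper edge-colouring of the complete graph on `n` vertices
has a spanning rainbow `t`-spider -/
def Good (n t : ℕ) : Prop :=
  ∀ (K : Type) (C : Sym2 (Fin n) → K), ProperColouring C →
    ∃ (v : Fin n) (T : SimpleGraph (Fin n)), IsSpider T v t ∧ Rainbow C T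

theorem pc_of {n : ℕ} {K : Type} {C : Sym2 (Fin n) → K} (hC : ProperColouring C) :
    PC (fun x y => C s(x, y)) := by
  refine ⟨fun x y => by rw [Sym2.eq_swap], ?_⟩
  intro x y z h1 h2 h3
  by_contra h4
  exact hC x y z h1 h2 h4 h3

theorem good_zero (n : ℕ) (hn : 0 < n) : Good n 0 := by
  intro K C hC
  obtain ⟨T, h⟩ := spider_of_closed (v := (⟨0, hn⟩ : Fin n)) hC (P := ∅) (t := 0) rfl
    (closed_empty _ _)
  exact ⟨_, T, h⟩

theorem good_one_iff (n : ℕ) (hn : 3 ≤ n) : Good n 1 ↔ ¬ Even n := by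
  constructor
  · intro h he
    obtain ⟨C, h1, h2⟩ := exists_even n he (by omega)
    obtain ⟨v, T, h3, h4⟩ := h _ C h1
    exact no_one h1 h2 v T h3 h4
  · intro h K C hC
    rw [Nat.not_even_iff_odd] at h
    obtain ⟨v, P, h1, h2⟩ := one_odd (pc_of hC) (by simpa using h) (by simpa using hn)
    obtain ⟨T, h3⟩ := spider_of_closed hC h2 h1
    exact ⟨v, T, h3⟩

theorem good_two_iff (n : ℕ) (hn : 30 ≤ n) : Good n 2 ↔ ¬ ∃ k, n = 2 ^ k := by
  constructor
  · rintro h ⟨k, hk⟩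
    obtain ⟨C, h1, h2, h5⟩ := exists_pow n k hk
    obtain ⟨v, T, h3, h4⟩ := h _ C h1
    exact no_two h1 h2 h5 v T h3 h4
  · intro h K C hC
    push Not at h
    obtain ⟨v, P, h1, h2⟩ := two_exists (pc_of hC) (by simpa using hn) (by simpa using h)
    obtain ⟨T, h3⟩ := spider_of_closed hC h2 h1
    exact ⟨v, T, h3⟩

theorem good_iff {ε : ℝ} (hε : 0 < ε) :
    ∃ n₀ : ℕ, ∀ n : ℕ, n₀ ≤ n → ∀ t : ℕ, (t : ℝ) ≤ (1 / 2 - ε) * (n : ℝ) →
      (Good n t ↔ ¬ (t = 1 ∧ Even n) ∧ ¬ (t = 2 ∧ ∃ k, n = 2 ^ k)) ∧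
      (3 ≤ t → ∀ (K : Type) (C : Sym2 (Fin n) → K), ProperColouring C → ∀ v : Fin n,
        ∃ T : SimpleGraph (Fin n), IsSpider T v t ∧ Rainbow C T) := by
  obtain ⟨n₀, h⟩ := spiders hε
  refine ⟨max n₀ 30, ?_⟩
  intro n hn t ht
  have hn0 : n₀ ≤ n := le_trans (le_max_left _ _) hn
  have hn30 : 30 ≤ n := le_trans (le_max_right _ _) hn
  have h3 : 3 ≤ t → ∀ (K : Type) (C : Sym2 (Fin n) → K), ProperColouring C → ∀ v : Fin n,
        ∃ T : SimpleGraph (Fin n), IsSpider T v t ∧ Rainbow C T := fun ht3 K C hC v =>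
    h (Fin n) K C v t (by simpa using hn0) hC ht3 (by simpa using ht)
  refine ⟨?_, h3⟩
  rcases Nat.lt_or_ge t 3 with ht3 | ht3
  · interval_cases t
    · simp [good_zero n (by omega)]
    · rw [good_one_iff n (by omega)]
      simp
    · rw [good_two_iff n hn30]
      simp
  · have hg : Good n t := by
      intro K C hC
      obtain ⟨T, hT⟩ := h3 ht3 K C hC ⟨0, by omega⟩
      exact ⟨_, T, hT⟩
    simp only [hg, true_iff]
    exact ⟨fun h => by omega, fun h => by omega⟩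

end Pool.Agent.TH437.SP
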