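import Mathlib

/-!
# Spanning rainbow spiders: definitions, closed families of pairs, assembly of the spider
-/

set_option autoImplicit false
set_option linter.unusedSectionVars false

namespace Pool.Agent.TH437.SP

open Finset

/-- `C` is a proper edge-colouring of the complete graph on `V`: two distinct edges sharing the
vertex `x` receive different colours. -/
def ProperColouring {V K : Type} (C : Sym2 V → K) : Prop :=
  ∀ x y z : V, x ≠ y → x ≠ z → y ≠ z → C s(x, y) ≠ C s(x, z)

/-- `T` is a spanning `t`-spider with centre `v` in the complete graph on `V`: there are a set `B` of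
`t` vertices (not containing `v`), and distinct vertices `m b` (`b ∈ B`) outside `B` and different
from `v`, such that the edges of `T` are the edges `v u` for all `u ≠ v` outside `B`, and the edges
`m b, b` for `b ∈ B`. (So `T` is the star with centre `v` whose leaves are the vertices outside
`{v} ∪ {m b : b ∈ B}`, with the edge from `v` to `b` subdivided once by `m b`, for `b ∈ B`.) -/
def IsSpider {V : Type} [DecidableEq V] (T : SimpleGraph V) (v : V) (t : ℕ) : Prop :=
  ∃ (B : Finset V) (m : V → V), B.card = t ∧ v ∉ B ∧ (∀ b ∈ B, m b ≠ v ∧ m b ∉ B) ∧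
    (∀ b ∈ B, ∀ b' ∈ B, m b = m b' → b = b') ∧
    ∀ x y, T.Adj x y ↔ ((x = v ∧ y ≠ v ∧ y ∉ B) ∨ (y = v ∧ x ≠ v ∧ x ∉ B) ∨
      (x ∈ B ∧ y = m x) ∨ (y ∈ B ∧ x = m y))

/-- the edges of `T` have pairwise distinct colours -/
def Rainbow {V K : Type} (C : Sym2 V → K) (T : SimpleGraph V) : Prop :=
  ∀ e ∈ T.edgeSet, ∀ e' ∈ T.edgeSet, C e = C e' → e = e'

section
variable {V K : Type} [DecidableEq V]

/-- a proper colouring as a symmetric function of two vertices -/
structure PC (c : V → V → K) : Prop where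
  symm : ∀ x y, c x y = c y x
  proper : ∀ x y z, x ≠ y → x ≠ z → c x y = c x z → y = z

/-- the colour `γ` appears at `v` -/
def Old (c : V → V → K) (v : V) (γ : K) : Prop := ∃ u, u ≠ v ∧ c v u = γ

/-- a closed family of pairs `(b, a)` -/
structure Closed (c : V → V → K) (v : V) (P : Finset (V × V)) : Prop where
  fst_ne : ∀ p ∈ P, p.1 ≠ v
  snd_ne : ∀ p ∈ P, p.2 ≠ v
  fst_inj : ∀ p ∈ P, ∀ q ∈ P, p.1 = q.1 → p = q
  snd_inj : ∀ p ∈ P, ∀ q ∈ P, p.2 = q.2 → p = q
  disj : ∀ p ∈ P, ∀ q ∈ P, p.1 ≠ q.2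
  col_inj : ∀ p ∈ P, ∀ q ∈ P, c p.1 p.2 = c q.1 q.2 → p = q
  label : ∀ p ∈ P, Old c v (c p.1 p.2) → ∃ q ∈ P, c v q.1 = c p.1 p.2

/-- two families of pairs do not interact -/
def Apart (c : V → V → K) (v : V) (P Q : Finset (V × V)) : Prop :=
  ∀ p ∈ P, ∀ q ∈ Q, p.1 ≠ q.1 ∧ p.1 ≠ q.2 ∧ p.2 ≠ q.1 ∧ p.2 ≠ q.2 ∧
    (¬ Old c v (c p.1 p.2) → c p.1 p.2 ≠ c q.1 q.2)

theorem Apart.symm {c : V → V → K} {v : V} {P Q : Finset (V × V)} (h : Apart c v P Q) :
    Apart c v Q P := by
  intro q hq p hp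
  obtain ⟨h1, h2, h3, h4, h5⟩ := h p hp q hq
  refine ⟨h1.symm, h3.symm, h2.symm, h4.symm, fun h6 h7 => ?_⟩
  rw [h7] at h6
  exact h5 h6 h7.symm

theorem cross_col {c : V → V → K} {v : V} (hc : PC c) {P Q : Finset (V × V)}
    (hP : Closed c v P) (hQ : Closed c v Q) (h : Apart c v P Q) {p q : V × V} (hp : p ∈ P)
    (hq : q ∈ Q) : c p.1 p.2 ≠ c q.1 q.2 := by
  intro he
  by_cases ho : Old c v (c p.1 p.2)
  · obtain ⟨p', hp', h1⟩ := hP.label p hp ho
    rw [he] at ho
    obtain ⟨q', hq', h2⟩ := hQ.label q hq ho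
    have h3 : p'.1 = q'.1 :=
      hc.proper v p'.1 q'.1 (hP.fst_ne p' hp').symm (hQ.fst_ne q' hq').symm (by rw [h1, h2, he])
    exact (h p' hp' q' hq').1 h3
  · exact (h p hp q hq).2.2.2.2 ho he

theorem Closed.biUnion {c : V → V → K} {v : V} (hc : PC c) {ι : Type} [DecidableEq ι]
    (M : Finset ι) (g : ι → Finset (V × V)) (h : ∀ i ∈ M, Closed c v (g i))
    (ha : ∀ i ∈ M, ∀ j ∈ M, i ≠ j → Apart c v (g i) (g j)) : Closed c v (M.biUnion g) := by
  refine ⟨?_, ?_, ?_, ?_, ?_, ?_, ?_⟩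
  · intro p hp
    obtain ⟨i, hi, hp⟩ := Finset.mem_biUnion.1 hp
    exact (h i hi).fst_ne p hp
  · intro p hp
    obtain ⟨i, hi, hp⟩ := Finset.mem_biUnion.1 hp
    exact (h i hi).snd_ne p hp
  · intro p hp q hq he
    obtain ⟨i, hi, hp⟩ := Finset.mem_biUnion.1 hp
    obtain ⟨j, hj, hq⟩ := Finset.mem_biUnion.1 hq
    by_cases hij : i = j
    · subst hij
      exact (h i hi).fst_inj p hp q hq he
    · exact absurd he (ha i hi j hj hij p hp q hq).1
  · intro p hp q hq he
    obtain ⟨i, hi, hp⟩ := Finset.mem_biUnion.1 hp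
    obtain ⟨j, hj, hq⟩ := Finset.mem_biUnion.1 hq
    by_cases hij : i = j
    · subst hij
      exact (h i hi).snd_inj p hp q hq he
    · exact absurd he (ha i hi j hj hij p hp q hq).2.2.2.1
  · intro p hp q hq
    obtain ⟨i, hi, hp⟩ := Finset.mem_biUnion.1 hp
    obtain ⟨j, hj, hq⟩ := Finset.mem_biUnion.1 hq
    by_cases hij : i = j
    · subst hij
      exact (h i hi).disj p hp q hq
    · exact (ha i hi j hj hij p hp q hq).2.1
  · intro p hp q hq he
    obtain ⟨i, hi, hp⟩ := Finset.mem_biUnion.1 hp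
    obtain ⟨j, hj, hq⟩ := Finset.mem_biUnion.1 hq
    by_cases hij : i = j
    · subst hij
      exact (h i hi).col_inj p hp q hq he
    · exact absurd he (cross_col hc (h i hi) (h j hj) (ha i hi j hj hij) hp hq)
  · intro p hp ho
    obtain ⟨i, hi, hp⟩ := Finset.mem_biUnion.1 hp
    obtain ⟨q, hq, h1⟩ := (h i hi).label p hp ho
    exact ⟨q, Finset.mem_biUnion.2 ⟨i, hi, hq⟩, h1⟩

theorem card_biUnion_apart {c : V → V → K} {v : V} {ι : Type} [DecidableEq ι]
    (M : Finset ι) (g : ι → Finset (V × V))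
    (ha : ∀ i ∈ M, ∀ j ∈ M, i ≠ j → Apart c v (g i) (g j)) :
    (M.biUnion g).card = ∑ i ∈ M, (g i).card := by
  refine Finset.card_biUnion ?_
  intro i hi j hj hij
  change Disjoint (g i) (g j)
  rw [Finset.disjoint_left]
  intro p hp hq
  exact (ha i hi j hj hij p hp p hq).1 rfl

theorem Closed.union {c : V → V → K} {v : V} (hc : PC c) {P Q : Finset (V × V)}
    (hP : Closed c v P) (hQ : Closed c v Q) (h : Apart c v P Q) : Closed c v (P ∪ Q) := by
  have h1 := Closed.biUnion (v := v) hc (Finset.univ : Finset Bool) (fun b => if b then P else Q)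
    (by intro i _; cases i <;> simp [hP, hQ])
    (by intro i _ j _ hij; cases i <;> cases j <;> simp_all [Apart.symm])
  have h2 : ((Finset.univ : Finset Bool).biUnion (fun b => if b then P else Q)) = P ∪ Q := by
    ext p
    simp [Finset.mem_biUnion, or_comm]
  rw [h2] at h1
  exact h1

theorem card_union_apart {c : V → V → K} {v : V} {P Q : Finset (V × V)}
    (h : Apart c v P Q) : (P ∪ Q).card = P.card + Q.card := by
  refine Finset.card_union_of_disjoint ?_
  rw [Finset.disjoint_left]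
  intro p hp hq
  exact (h p hp p hq).1 rfl

/-- a closed family with `t` pairs gives a spanning rainbow `t`-spider -/
theorem spider_of_closed {C : Sym2 V → K} {v : V} (hC : ProperColouring C)
    {P : Finset (V × V)} {t : ℕ} (ht : P.card = t)
    (hP : Closed (fun x y => C s(x, y)) v P) :
    ∃ T : SimpleGraph V, IsSpider T v t ∧ Rainbow C T := by
  classical
  have hprop : ∀ x y z, x ≠ y → x ≠ z → C s(x, y) = C s(x, z) → y = z := by
    intro x y z h1 h2 h3
    by_contra h4
    exact hC x y z h1 h2 h4 h3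
  set B : Finset V := P.image Prod.fst with hB
  have hex : ∀ b ∈ B, ∃ a, (b, a) ∈ P := by
    intro b hb
    rw [hB, Finset.mem_image] at hb
    obtain ⟨⟨b', a⟩, h1, h2⟩ := hb
    exact ⟨a, by simpa [← h2] using h1⟩
  have hex' : ∀ b : V, ∃ a, b ∈ B → (b, a) ∈ P := by
    intro b
    by_cases hb : b ∈ B
    · obtain ⟨a, ha⟩ := hex b hb
      exact ⟨a, fun _ => ha⟩
    · exact ⟨b, fun h => absurd h hb⟩
  choose m hm using hex'
  have hBP : ∀ p ∈ P, p.1 ∈ B := fun p hp => Finset.mem_image_of_mem _ hp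
  have hvB : v ∉ B := fun h => hP.fst_ne _ (hm v h) rfl
  have hmv : ∀ b ∈ B, m b ≠ v := fun b hb => hP.snd_ne _ (hm b hb)
  have hmB : ∀ b ∈ B, m b ∉ B := fun b hb h => (hP.disj _ (hm (m b) h) _ (hm b hb)) rfl
  have hminj : ∀ b ∈ B, ∀ b' ∈ B, m b = m b' → b = b' := by
    intro b hb b' hb' h
    have h1 := hP.snd_inj _ (hm b hb) _ (hm b' hb') h
    exact congrArg Prod.fst h1
  set par : V → V := fun u => if u ∈ B then m u else v with hpar
  have hparne : ∀ u, u ≠ v → u ≠ par u := by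
    intro u hu
    simp only [hpar]
    split_ifs with h
    · intro h2
      exact hmB u h (h2 ▸ h)
    · exact hu
  let T : SimpleGraph V :=
    { Adj := fun x y => (x ≠ v ∧ y = par x) ∨ (y ≠ v ∧ x = par y)
      symm := by
        constructor
        intro x y h
        rcases h with h | h
        · exact Or.inr h
        · exact Or.inl h
      loopless := by
        constructor
        intro x h
        rcases h with h | h
        · exact hparne x h.1 h.2
        · exact hparne x h.1 h.2 }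
  have hinj : ∀ u u', u ≠ v → u' ≠ v → C s(u, par u) = C s(u', par u') → u = u' := by
    intro u u' hu hu' h
    by_cases h1 : u ∈ B
    · by_cases h2 : u' ∈ B
      · simp only [hpar, if_pos h1, if_pos h2] at h
        exact congrArg Prod.fst (hP.col_inj _ (hm u h1) _ (hm u' h2) h)
      · exfalso
        simp only [hpar, if_pos h1, if_neg h2] at h
        rw [Sym2.eq_swap (a := u') (b := v)] at h
        obtain ⟨q, hq, h3⟩ := hP.label _ (hm u h1) ⟨u', hu', h.symm⟩
        have h4 : q.1 = u' := hprop v q.1 u' (hP.fst_ne q hq).symm hu'.symm (h3.trans h)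
        exact h2 (h4 ▸ hBP q hq)
    · by_cases h2 : u' ∈ B
      · exfalso
        simp only [hpar, if_neg h1, if_pos h2] at h
        rw [Sym2.eq_swap (a := u) (b := v)] at h
        obtain ⟨q, hq, h3⟩ := hP.label _ (hm u' h2) ⟨u, hu, h⟩
        have h4 : q.1 = u := hprop v q.1 u (hP.fst_ne q hq).symm hu.symm (h3.trans h.symm)
        exact h1 (h4 ▸ hBP q hq)
      · simp only [hpar, if_neg h1, if_neg h2] at h
        rw [Sym2.eq_swap (a := u) (b := v), Sym2.eq_swap (a := u') (b := v)] at h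
        exact hprop v u u' hu.symm hu'.symm h
  have hedge : ∀ e ∈ T.edgeSet, ∃ u, u ≠ v ∧ e = s(u, par u) := by
    intro e
    induction e using Sym2.ind with
    | _ x y =>
      intro h
      rw [SimpleGraph.mem_edgeSet] at h
      rcases h with ⟨h1, h2⟩ | ⟨h1, h2⟩
      · exact ⟨x, h1, by rw [h2]⟩
      · exact ⟨y, h1, by rw [h2, Sym2.eq_swap]⟩
  refine ⟨T, ⟨B, m, ?_, hvB, fun b hb => ⟨hmv b hb, hmB b hb⟩, hminj, ?_⟩, ?_⟩
  · rw [hB, Finset.card_image_of_injOn, ht]
    intro p hp q hq h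
    exact hP.fst_inj p hp q hq h
  · intro x y
    constructor
    · rintro (⟨h1, h2⟩ | ⟨h1, h2⟩)
      · by_cases hx : x ∈ B
        · right; right; left
          exact ⟨hx, by simpa [hpar, hx] using h2⟩
        · right; left
          exact ⟨by simpa [hpar, hx] using h2, h1, hx⟩
      · by_cases hy : y ∈ B
        · right; right; right
          exact ⟨hy, by simpa [hpar, hy] using h2⟩
        · left
          exact ⟨by simpa [hpar, hy] using h2, h1, hy⟩
    · rintro (⟨h1, h2, h3⟩ | ⟨h1, h2, h3⟩ | ⟨h1, h2⟩ | ⟨h1, h2⟩)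
      · right
        exact ⟨h2, by simp [hpar, h3, h1]⟩
      · left
        exact ⟨h2, by simp [hpar, h3, h1]⟩
      · left
        exact ⟨fun h => hvB (h ▸ h1), by simp [hpar, h1, h2]⟩
      · right
        exact ⟨fun h => hvB (h ▸ h1), by simp [hpar, h1, h2]⟩
  · intro e he e' he' h
    obtain ⟨u, hu, rfl⟩ := hedge e he
    obtain ⟨u', hu', rfl⟩ := hedge e' he'
    rw [hinj u u' hu hu' h]

end

end Pool.Agent.TH437.SP
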