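import Pool.Agent.TH437.SP.Small

/-!
# Closed families of a prescribed small size: existence
-/

set_option autoImplicit false
set_option linter.unusedSectionVars false

namespace Pool.Agent.TH437.SP

open Finset

section
variable {V K : Type} [Fintype V] [DecidableEq V] {c : V → V → K} {v : V}

theorem small_closed (hc : PC c) (v : V) (k : ℕ) (hk : 3 ≤ k) (hn : 30 * k ≤ Fintype.card V) :
    ∃ P : Finset (V × V), Closed c v P ∧ P.card = k := by
  classical
  set Rv : Finset V := univ.filter (fun x => x ≠ v ∧ 3 * k ≤ (New c v x).card) with hRv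
  by_cases hR : k ≤ Rv.card
  · obtain ⟨B, hB1, hB2⟩ := Finset.exists_subset_card_eq hR
    refine rich_case hc k B hB2 ?_ ?_
    · intro h
      have := hB1 h
      simp [hRv] at this
    · intro b hb
      have := hB1 hb
      rw [hRv, Finset.mem_filter] at this
      exact this.2.2
  push Not at hR
  set P0 : Finset V := univ.filter (fun x => x ≠ v ∧ x ∉ Rv) with hP0
  have hpoor : ∀ x, x ≠ v → x ∉ Rv → (Miss c v x).card < 3 * k := by
    intro x hx hxR
    rw [card_Miss hc hx]
    by_contra h
    push Not at h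
    exact hxR (by rw [hRv]; simp [hx, h])
  have hP0ne : P0.Nonempty := by
    rw [Finset.nonempty_iff_ne_empty]
    intro h
    have h1 : (univ : Finset V) ⊆ insert v Rv := by
      intro x _
      by_contra h2
      simp only [Finset.mem_insert, not_or] at h2
      have : x ∈ P0 := by rw [hP0]; simp [h2.1, h2.2]
      rw [h] at this
      simp at this
    have h2 := Finset.card_le_card h1
    have h3 := Finset.card_insert_le v Rv
    rw [Finset.card_univ] at h2
    omega
  obtain ⟨s, hs0, hs⟩ : ∃ s ∈ P0, (P0.filter (fun x => s ∈ Miss c v x)).card ≤ 3 * k := by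
    refine Finset.exists_le_of_sum_le (f := fun s => (P0.filter (fun x => s ∈ Miss c v x)).card)
      (g := fun _ => 3 * k) hP0ne ?_
    have h1 : ∑ s ∈ P0, (P0.filter (fun x => s ∈ Miss c v x)).card =
        ∑ x ∈ P0, (P0.filter (fun s => s ∈ Miss c v x)).card := by
      simp_rw [Finset.card_eq_sum_ones, Finset.sum_filter]
      rw [Finset.sum_comm]
    rw [h1]
    refine Finset.sum_le_sum fun x hx => ?_
    rw [hP0, Finset.mem_filter] at hx
    have h2 := hpoor x hx.2.1 hx.2.2
    have h3 : (P0.filter (fun s => s ∈ Miss c v x)).card ≤ (Miss c v x).card :=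
      Finset.card_le_card (fun y hy => (Finset.mem_filter.1 hy).2)
    omega
  have hsv : s ≠ v := by
    rw [hP0, Finset.mem_filter] at hs0; exact hs0.2.1
  have hsR : s ∉ Rv := by
    rw [hP0, Finset.mem_filter] at hs0; exact hs0.2.2
  set BE : Finset V := univ.filter (fun x => 3 ≤ (CO c v s x).card) with hBE
  have hBEc : 3 * BE.card ≤ Fintype.card V := by
    calc 3 * BE.card = ∑ x ∈ BE, 3 := by rw [Finset.sum_const, smul_eq_mul, mul_comm]
      _ ≤ ∑ x ∈ BE, (CO c v s x).card := by
          refine Finset.sum_le_sum fun x hx => ?_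
          rw [hBE, Finset.mem_filter] at hx
          exact hx.2
      _ ≤ ∑ x, (CO c v s x).card := Finset.sum_le_sum_of_subset (Finset.subset_univ _)
      _ ≤ Fintype.card V := sum_CO hc s
  have path : ∀ j, j ≤ k - 2 → ∃ (P : Finset (V × V)) (e : V), Opn c v P s e ∧ P.card = j ∧
      e ∉ Rv ∧ (j = 0 ∨ e ∉ BE) := by
    intro j
    induction j with
    | zero =>
      intro _
      exact ⟨∅, s, Opn.start hsv, rfl, hsR, Or.inl rfl⟩
    | succ j ih =>
      intro hj
      obtain ⟨P, e, hP, hPc, heR, _⟩ := ih (by omega)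
      have h1 := card_vs P v e
      have h2 := hpoor e hP.e_ne heR
      have h3 := Finset.card_union_le Rv BE
      obtain ⟨y, a, hy1, hy2, ha1, hay, hcol⟩ := step hc hP.e_ne (vs P v e) (Rv ∪ BE)
        (by simp [vs]) (by simp [vs]) (by omega)
      obtain ⟨h4, h5⟩ := hP.extend hc hy1 ha1 hay hcol
      simp only [Finset.mem_union, not_or] at hy2
      exact ⟨insert (e, a) P, y, h4, by rw [h5, hPc], hy2.1, Or.inr hy2.2⟩
  obtain ⟨P, e, hP, hPc, heR, he⟩ := path (k - 2) le_rfl
  have heB : e ∉ BE := by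
    rcases he with h | h
    · omega
    · exact h
  have hCO : (CO c v s e).card ≤ 2 := by
    by_contra h
    push Not at h
    exact heB (by rw [hBE]; simp; omega)
  set F : Finset V := vs P v e with hF
  set X : Finset V := F.biUnion (fun a => univ.filter (fun y => y ≠ a ∧ c y a = c v s)) with hX
  have hXc : X.card ≤ F.card := by
    rw [hX]
    refine Finset.card_biUnion_le.trans ?_
    calc ∑ a ∈ F, (univ.filter (fun y => y ≠ a ∧ c y a = c v s)).card ≤ ∑ _a ∈ F, 1 := by
          refine Finset.sum_le_sum fun a _ => ?_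
          rw [Finset.card_le_one]
          intro y hy z hz
          simp only [Finset.mem_filter, Finset.mem_univ, true_and] at hy hz
          refine hc.proper a y z hy.1.symm hz.1.symm ?_
          rw [hc.symm a y, hc.symm a z, hy.2, hz.2]
      _ = F.card := by simp
  have h1 := card_vs P v e
  rw [← hF] at h1
  have h2 := hpoor e hP.e_ne heR
  have hZ : (Rv ∪ P0.filter (fun x => s ∈ Miss c v x) ∪ CO c v s e ∪ X).card ≤
      Rv.card + 3 * k + 2 + F.card := by
    have h3 := Finset.card_union_le (Rv ∪ P0.filter (fun x => s ∈ Miss c v x) ∪ CO c v s e) X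
    have h4 := Finset.card_union_le (Rv ∪ P0.filter (fun x => s ∈ Miss c v x)) (CO c v s e)
    have h5 := Finset.card_union_le Rv (P0.filter (fun x => s ∈ Miss c v x))
    omega
  obtain ⟨y, a, hy1, hy2, ha1, hay, hcol⟩ := step hc hP.e_ne F
    (Rv ∪ P0.filter (fun x => s ∈ Miss c v x) ∪ CO c v s e ∪ X)
    (by simp [hF, vs]) (by simp [hF, vs]) (by omega)
  simp only [Finset.mem_union, not_or] at hy2
  obtain ⟨⟨⟨hyR, hyM⟩, hyC⟩, hyX⟩ := hy2
  obtain ⟨hyv, hye, hyf, hyg⟩ := not_mem_vs.1 hy1
  obtain ⟨hav, hae, haf, hag⟩ := not_mem_vs.1 ha1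
  have hys : s ≠ y := by
    rcases hP.s_mem with h | ⟨q, hq, h⟩
    · rw [h]; exact hye.symm
    · rw [← h]; exact hyf q hq
  have hold : Old c y (c v s) := by
    by_contra h
    apply hyM
    rw [Finset.mem_filter]
    exact ⟨by rw [hP0]; simp [hyv, hyR], mem_Miss.2 ⟨hsv, hys, h⟩⟩
  obtain ⟨a', ha'y, hcol'⟩ := hold
  have ha'F : a' ∉ F := by
    intro h
    apply hyX
    rw [hX]
    exact Finset.mem_biUnion.2 ⟨a', h, by simp [ha'y.symm, hcol']⟩
  have ha'a : a' ≠ a := by
    rintro rfl
    exact hyC (mem_CO.2 ⟨a', hae, ha'y, hcol, hcol'⟩)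
  obtain ⟨h6, h7⟩ := hP.extend hc hy1 ha1 hay hcol
  have h8 : a' ∉ vs (insert (e, a) P) v y := by
    obtain ⟨g1, g2, g3, g4⟩ := not_mem_vs.1 ha'F
    refine not_mem_vs.2 ⟨g1, ha'y, ?_, ?_⟩
    · intro p hp
      rcases Finset.mem_insert.1 hp with rfl | hp
      · exact g2.symm
      · exact g3 p hp
    · intro p hp
      rcases Finset.mem_insert.1 hp with rfl | hp
      · exact ha'a.symm
      · exact g4 p hp
  obtain ⟨h9, h10⟩ := h6.close hc h8 hcol'
  exact ⟨_, h9, by rw [h10, h7, hPc]; omega⟩

end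

end Pool.Agent.TH437.SP
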