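import Pool.Agent.TH437.SP.Main2
import Pool.Agent.TH437.SP.Small2

/-!
# Spanning rainbow spiders
-/

set_option autoImplicit false
set_option linter.unusedSectionVars false

namespace Pool.Agent.TH437.SP

open Finset

theorem spiders {ε : ℝ} (hε : 0 < ε) :
    ∃ n₀ : ℕ, ∀ (V K : Type) [Fintype V] [DecidableEq V] (C : Sym2 V → K) (v : V) (t : ℕ),
      n₀ ≤ Fintype.card V → ProperColouring C → 3 ≤ t →
      (t : ℝ) ≤ (1 / 2 - ε) * (Fintype.card V : ℝ) →
      ∃ T : SimpleGraph V, IsSpider T v t ∧ Rainbow C T := by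
  classical
  set δ : ℝ := min ε 1 with hδ
  have hδ0 : 0 < δ := lt_min hε one_pos
  have hδ1 : δ ≤ 1 := min_le_right _ _
  have hδε : δ ≤ ε := min_le_left _ _
  obtain ⟨n₁, h₁⟩ := exists_gadgets hδ0 hδ1
  obtain ⟨n₂, h₂⟩ := exists_nat_ge (90 / δ)
  refine ⟨max (max n₁ n₂) 150, ?_⟩
  intro V K _ _ C v t hn hC ht3 ht
  have hn1 : n₁ ≤ Fintype.card V := le_trans (le_trans (le_max_left _ _) (le_max_left _ _)) hn
  have hn2 : n₂ ≤ Fintype.card V := le_trans (le_trans (le_max_right _ _) (le_max_left _ _)) hn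
  have hn3 : 150 ≤ Fintype.card V := le_trans (le_max_right _ _) hn
  set c : V → V → K := fun x y => C s(x, y) with hcdef
  have hc : PC c := by
    refine ⟨?_, ?_⟩
    · intro x y
      simp only [hcdef]
      rw [Sym2.eq_swap]
    · intro x y z h1 h2 h3
      by_contra h4
      exact hC x y z h1 h2 h4 h3
  obtain ⟨Q, hQ, hQc⟩ := small_closed hc v (3 + t % 3) (by omega) (by omega)
  obtain ⟨M, hM1, hM2, hM3⟩ := h₁ V K c hc v hn1
  set n : ℝ := (Fintype.card V : ℝ) with hn'
  have hnn : 90 / δ ≤ n := h₂.trans (Nat.cast_le.2 hn2)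
  have hnd : 90 ≤ n * δ := by rwa [div_le_iff₀ hδ0] at hnn
  have hn0 : 0 ≤ n := by positivity
  set M' : Finset (Six V) := M.filter (fun e => Disjoint (TokP c v (gd e)) (TokP c v Q)) with hM'
  have hrem : (M.filter (fun e => ¬ Disjoint (TokP c v (gd e)) (TokP c v Q))).card ≤ 15 := by
    have h1 : M.filter (fun e => ¬ Disjoint (TokP c v (gd e)) (TokP c v Q)) ⊆
        (TokP c v Q).biUnion (fun τ => M.filter (fun e => τ ∈ TokP c v (gd e))) := by
      intro e he
      rw [Finset.mem_filter] at he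
      obtain ⟨τ, h1, h2⟩ := Finset.not_disjoint_iff.1 he.2
      exact Finset.mem_biUnion.2 ⟨τ, h2, Finset.mem_filter.2 ⟨he.1, h1⟩⟩
    have h2 := Finset.card_le_card h1
    have h3 : ((TokP c v Q).biUnion (fun τ => M.filter (fun e => τ ∈ TokP c v (gd e)))).card ≤
        (TokP c v Q).card := by
      refine Finset.card_biUnion_le.trans ?_
      calc ∑ τ ∈ TokP c v Q, (M.filter (fun e => τ ∈ TokP c v (gd e))).card ≤
            ∑ _τ ∈ TokP c v Q, 1 := by
            refine Finset.sum_le_sum fun τ _ => ?_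
            rw [Finset.card_le_one]
            intro e he f hf
            rw [Finset.mem_filter] at he hf
            by_contra hef
            exact Finset.disjoint_left.1 (hM2 e he.1 f hf.1 hef) he.2 hf.2
        _ = _ := by simp
    have h4 := card_TokP (c := c) (v := v) Q
    omega
  have hM'c : M.card ≤ M'.card + 15 := by
    have := Finset.card_filter_add_card_filter_not (s := M)
      (fun e => Disjoint (TokP c v (gd e)) (TokP c v Q))
    rw [hM']
    omega
  have hm : t / 3 - 1 ≤ M'.card := by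
    have h1 : (1 - δ) * n / 6 ≤ (M'.card : ℝ) + 15 := hM3.trans (by exact_mod_cast hM'c)
    have h2 : ((t / 3 - 1 : ℕ) : ℝ) ≤ (t : ℝ) / 3 - 1 := by
      have h3 : 3 * (t / 3 - 1) + 3 ≤ t := by omega
      have h4 : ((3 * (t / 3 - 1) + 3 : ℕ) : ℝ) ≤ (t : ℝ) := by exact_mod_cast h3
      push_cast at h4 ⊢
      linarith
    have h5 : (t : ℝ) ≤ (1 / 2 - δ) * n :=
      ht.trans (mul_le_mul_of_nonneg_right (by linarith) hn0)
    have h6 : ((t / 3 - 1 : ℕ) : ℝ) ≤ (M'.card : ℝ) := by
      nlinarith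
    exact_mod_cast h6
  obtain ⟨M'', hM''1, hM''2⟩ := Finset.exists_subset_card_eq hm
  have hin : ∀ e ∈ M'', e ∈ M ∧ Disjoint (TokP c v (gd e)) (TokP c v Q) := by
    intro e he
    have := hM''1 he
    rwa [hM', Finset.mem_filter] at this
  have hap : ∀ e ∈ M'', ∀ f ∈ M'', e ≠ f → Apart c v (gd e) (gd f) := fun e he f hf hef =>
    apart_of_disjoint (hM2 e (hin e he).1 f (hin f hf).1 hef)
  have hcl : Closed c v (M''.biUnion gd) :=
    Closed.biUnion hc M'' gd (fun e he => (hM1 e (hin e he).1).1) hap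
  have hcc : (M''.biUnion gd).card = 3 * (t / 3 - 1) := by
    rw [card_biUnion_apart (c := c) (v := v) M'' gd hap,
      Finset.sum_congr rfl (fun e he => (hM1 e (hin e he).1).2), Finset.sum_const, hM''2]
    simp [mul_comm]
  have hapQ : Apart c v (M''.biUnion gd) Q := by
    intro p hp q hq
    obtain ⟨e, he, hpe⟩ := Finset.mem_biUnion.1 hp
    exact apart_of_disjoint (hin e he).2 p hpe q hq
  refine spider_of_closed hC (P := M''.biUnion gd ∪ Q) ?_ (Closed.union hc hcl hQ hapQ)
  rw [card_union_apart hapQ, hcc, hQc]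
  omega

end Pool.Agent.TH437.SP
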