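import Pool.Agent.TH437.SP.Defs

/-!
# The fractional steps
-/

set_option autoImplicit false
set_option linter.unusedSectionVars false

namespace Pool.Agent.TH437.SP

open Finset

section
variable {V K : Type} [Fintype V] [DecidableEq V]

open Classical in
/-- labels whose colour is missing at `x` -/
noncomputable def Miss (c : V → V → K) (v x : V) : Finset V :=
  univ.filter (fun y => y ≠ v ∧ y ≠ x ∧ ¬ Old c x (c v y))

open Classical in
/-- neighbours of `x` along edges whose colour is missing at `v` -/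
noncomputable def New (c : V → V → K) (v x : V) : Finset V :=
  univ.filter (fun a => a ≠ v ∧ a ≠ x ∧ ¬ Old c v (c x a))

theorem mem_Miss {c : V → V → K} {v x y : V} :
    y ∈ Miss c v x ↔ y ≠ v ∧ y ≠ x ∧ ¬ Old c x (c v y) := by
  simp [Miss]

theorem mem_New {c : V → V → K} {v x a : V} :
    a ∈ New c v x ↔ a ≠ v ∧ a ≠ x ∧ ¬ Old c v (c x a) := by
  simp [New]

theorem card_Miss {c : V → V → K} (hc : PC c) {v x : V} (hx : x ≠ v) :
    (Miss c v x).card = (New c v x).card := by
  classical
  set A : Finset K := (univ.erase v).image (c v) with hA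
  set B : Finset K := (univ.erase x).image (c x) with hB
  have hAc : A.card = (univ.erase v).card := by
    rw [hA, Finset.card_image_of_injOn]
    intro y hy z hz h
    have hy' : y ≠ v := by simpa using hy
    have hz' : z ≠ v := by simpa using hz
    exact hc.proper v y z hy'.symm hz'.symm h
  have hBc : B.card = (univ.erase x).card := by
    rw [hB, Finset.card_image_of_injOn]
    intro y hy z hz h
    have hy' : y ≠ x := by simpa using hy
    have hz' : z ≠ x := by simpa using hz
    exact hc.proper x y z hy'.symm hz'.symm h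
  have hAB : A.card = B.card := by
    rw [hAc, hBc, Finset.card_erase_of_mem (mem_univ _), Finset.card_erase_of_mem (mem_univ _)]
  have h1 : (Miss c v x).card = (A \ B).card := by
    have : A \ B = (Miss c v x).image (c v) := by
      ext γ
      simp only [hA, hB, Finset.mem_sdiff, Finset.mem_image, mem_Miss, Finset.mem_erase,
        Finset.mem_univ, and_true]
      constructor
      · rintro ⟨⟨y, hy, rfl⟩, h2⟩
        refine ⟨y, ⟨hy, ?_, ?_⟩, rfl⟩
        · rintro rfl
          exact h2 ⟨v, hy.symm, hc.symm _ _⟩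
        · rintro ⟨u, hu, h3⟩
          exact h2 ⟨u, hu, h3⟩
      · rintro ⟨y, ⟨hy, _, h3⟩, rfl⟩
        refine ⟨⟨y, hy, rfl⟩, ?_⟩
        rintro ⟨u, hu, h4⟩
        exact h3 ⟨u, hu, h4⟩
    rw [this, Finset.card_image_of_injOn]
    intro y hy z hz h
    have hy' := (mem_Miss.1 (by simpa using hy : y ∈ Miss c v x)).1
    have hz' := (mem_Miss.1 (by simpa using hz : z ∈ Miss c v x)).1
    exact hc.proper v y z hy'.symm hz'.symm h
  have h2 : (New c v x).card = (B \ A).card := by
    have : B \ A = (New c v x).image (c x) := by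
      ext γ
      simp only [hA, hB, Finset.mem_sdiff, Finset.mem_image, mem_New, Finset.mem_erase,
        Finset.mem_univ, and_true]
      constructor
      · rintro ⟨⟨y, hy, rfl⟩, h2⟩
        refine ⟨y, ⟨?_, hy, ?_⟩, rfl⟩
        · rintro rfl
          exact h2 ⟨x, hx, hc.symm _ _⟩
        · rintro ⟨u, hu, h3⟩
          exact h2 ⟨u, hu, h3⟩
      · rintro ⟨y, ⟨_, hy, h3⟩, rfl⟩
        refine ⟨⟨y, hy, rfl⟩, ?_⟩
        rintro ⟨u, hu, h4⟩
        exact h3 ⟨u, hu, h4⟩
    rw [this, Finset.card_image_of_injOn]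
    intro y hy z hz h
    have hy' := (mem_New.1 (by simpa using hy : y ∈ New c v x)).2.1
    have hz' := (mem_New.1 (by simpa using hz : z ∈ New c v x)).2.1
    exact hc.proper x y z hy'.symm hz'.symm h
  rw [h1, h2, Finset.card_sdiff_comm hAB]

open Classical in
/-- real steps -/
noncomputable def Sr (c : V → V → K) (v x y a : V) : ℝ :=
  if x ≠ v ∧ y ≠ v ∧ a ≠ v ∧ a ≠ x ∧ c x a = c v y then 1 else 0

open Classical in
/-- virtual steps -/
noncomputable def Sv (c : V → V → K) (v : V) (κ : ℝ) (x y a : V) : ℝ :=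
  if x ≠ v ∧ y ∈ Miss c v x ∧ a ∈ New c v x ∧ a ≠ y ∧
    κ * (Fintype.card V : ℝ) ≤ ((New c v x).card : ℝ) then 1 / ((New c v x).card : ℝ) else 0

/-- the weight of the step `x → y` with partner `a` -/
noncomputable def S (c : V → V → K) (v : V) (κ : ℝ) (x y a : V) : ℝ :=
  Sr c v x y a + Sv c v κ x y a

variable {c : V → V → K} {v : V} {κ : ℝ}

theorem Sr_nonneg (x y a : V) : 0 ≤ Sr c v x y a := by
  unfold Sr; split_ifs <;> norm_num

theorem Sv_nonneg (x y a : V) : 0 ≤ Sv c v κ x y a := by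
  unfold Sv; split_ifs <;> positivity

theorem S_nonneg (x y a : V) : 0 ≤ S c v κ x y a := add_nonneg (Sr_nonneg _ _ _) (Sv_nonneg _ _ _)

theorem Sr_pos {x y a : V} (h : Sr c v x y a ≠ 0) :
    x ≠ v ∧ y ≠ v ∧ a ≠ v ∧ a ≠ x ∧ c x a = c v y := by
  unfold Sr at h
  by_contra h1
  rw [if_neg h1] at h
  exact h rfl

theorem Sv_pos {x y a : V} (h : Sv c v κ x y a ≠ 0) :
    x ≠ v ∧ y ∈ Miss c v x ∧ a ∈ New c v x ∧ a ≠ y ∧
    κ * (Fintype.card V : ℝ) ≤ ((New c v x).card : ℝ) := by
  unfold Sv at h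
  by_contra h1
  rw [if_neg h1] at h
  exact h rfl

/-- what a step of positive weight means -/
theorem S_pos (hc : PC c) {x y a : V} (h : S c v κ x y a ≠ 0) :
    x ≠ v ∧ y ≠ v ∧ a ≠ v ∧ a ≠ x ∧ a ≠ y ∧ x ≠ y ∧
      (c x a = c v y ∨ ¬ Old c v (c x a)) := by
  by_cases h1 : Sr c v x y a = 0
  · have h2 : Sv c v κ x y a ≠ 0 := by
      intro h3
      exact h (by rw [S, h1, h3, add_zero])
    obtain ⟨h3, h4, h5, h6, _⟩ := Sv_pos h2
    rw [mem_Miss] at h4
    rw [mem_New] at h5
    exact ⟨h3, h4.1, h5.1, h5.2.1, h6, h4.2.1.symm, Or.inr h5.2.2⟩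
  · obtain ⟨h3, h4, h5, h6, h7⟩ := Sr_pos h1
    refine ⟨h3, h4, h5, h6, ?_, ?_, Or.inl h7⟩
    · rintro rfl
      have h8 : c a x = c a v := by rw [hc.symm a x, h7, hc.symm]
      exact h3 (hc.proper a x v h6 h5 h8)
    · rintro rfl
      have h8 : c x a = c x v := by rw [h7, hc.symm]
      exact h5 (hc.proper x a v h6.symm h3 h8)

/-- sum over a predicate with at most one solution -/
theorem sum_le_of {α : Type} [Fintype α] (f : α → ℝ) {B : ℝ} (hB : 0 ≤ B) (hf : ∀ a, f a ≤ B)
    (h : ∀ a b, f a ≠ 0 → f b ≠ 0 → a = b) : ∑ a, f a ≤ B := by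
  classical
  by_cases h0 : ∃ a, f a ≠ 0
  · obtain ⟨a, ha⟩ := h0
    rw [Finset.sum_eq_single a]
    · exact hf a
    · intro b _ hb
      by_contra h1
      exact hb (h b a h1 ha)
    · intro h1; exact absurd (mem_univ a) h1
  · push Not at h0
    simpa [h0] using hB

theorem sum_le_one_of {α : Type} [Fintype α] (f : α → ℝ) (hf : ∀ a, f a ≤ 1) (_ : ∀ a, 0 ≤ f a)
    (h : ∀ a b, f a ≠ 0 → f b ≠ 0 → a = b) : ∑ a, f a ≤ 1 := sum_le_of f zero_le_one hf h

theorem Sr_le_one (x y a : V) : Sr c v x y a ≤ 1 := by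
  unfold Sr; split_ifs <;> norm_num

theorem Sr_zero_of_Miss (hc : PC c) {x y a : V} (h : y ∈ Miss c v x) : Sr c v x y a = 0 := by
  by_contra h1
  obtain ⟨_, _, _, h6, h7⟩ := Sr_pos h1
  exact (mem_Miss.1 h).2.2 ⟨a, h6, h7⟩

theorem Sr_zero_of_New (hc : PC c) {x y a : V} (h : a ∈ New c v x) : Sr c v x y a = 0 := by
  by_contra h1
  obtain ⟨_, h4, _, _, h7⟩ := Sr_pos h1
  exact (mem_New.1 h).2.2 ⟨y, h4, h7.symm⟩

theorem Sv_zero_of_not_Miss {x y a : V} (h : y ∉ Miss c v x) : Sv c v κ x y a = 0 := by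
  by_contra h1
  exact h (Sv_pos h1).2.1

theorem Sv_zero_of_not_New {x y a : V} (h : a ∉ New c v x) : Sv c v κ x y a = 0 := by
  by_contra h1
  exact h (Sv_pos h1).2.2.1

theorem Sv_le (x y a : V) : Sv c v κ x y a ≤ 1 / ((New c v x).card : ℝ) := by
  unfold Sv
  split_ifs
  · exact le_rfl
  · positivity

/-- L1 -/
theorem sum_a_le (hc : PC c) (x y : V) : ∑ a, S c v κ x y a ≤ 1 := by
  classical
  by_cases h : y ∈ Miss c v x
  · have h1 : ∀ a, S c v κ x y a = Sv c v κ x y a := fun a => by
      rw [S, Sr_zero_of_Miss hc h, zero_add]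
    simp_rw [h1]
    rw [← Finset.sum_subset (Finset.subset_univ (New c v x))
      (fun a _ ha => Sv_zero_of_not_New ha)]
    calc ∑ a ∈ New c v x, Sv c v κ x y a ≤ ∑ a ∈ New c v x, 1 / ((New c v x).card : ℝ) :=
          Finset.sum_le_sum fun a _ => Sv_le _ _ _
      _ ≤ 1 := by
          rw [Finset.sum_const, nsmul_eq_mul, mul_one_div]
          exact div_self_le_one _
  · have h1 : ∀ a, S c v κ x y a = Sr c v x y a := fun a => by
      rw [S, Sv_zero_of_not_Miss h, add_zero]
    simp_rw [h1]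
    refine sum_le_one_of _ (fun a => Sr_le_one _ _ _) (fun a => Sr_nonneg _ _ _) ?_
    intro a b ha hb
    obtain ⟨_, _, _, h6, h7⟩ := Sr_pos ha
    obtain ⟨_, _, _, h6', h7'⟩ := Sr_pos hb
    exact hc.proper x a b h6.symm h6'.symm (h7.trans h7'.symm)

/-- L2 -/
theorem sum_y_le (hc : PC c) (x a : V) : ∑ y, S c v κ x y a ≤ 1 := by
  classical
  by_cases hx : x = v
  · have : ∀ y, S c v κ x y a = 0 := by
      intro y
      by_contra h
      exact (S_pos hc h).1 hx
    simp [this]
  by_cases h : a ∈ New c v x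
  · have h1 : ∀ y, S c v κ x y a = Sv c v κ x y a := fun y => by
      rw [S, Sr_zero_of_New hc h, zero_add]
    simp_rw [h1]
    rw [← Finset.sum_subset (Finset.subset_univ (Miss c v x))
      (fun a _ ha => Sv_zero_of_not_Miss ha)]
    calc ∑ y ∈ Miss c v x, Sv c v κ x y a ≤ ∑ y ∈ Miss c v x, 1 / ((New c v x).card : ℝ) :=
          Finset.sum_le_sum fun a _ => Sv_le _ _ _
      _ ≤ 1 := by
          rw [Finset.sum_const, nsmul_eq_mul, card_Miss hc hx, mul_one_div]
          exact div_self_le_one _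
  · have h1 : ∀ y, S c v κ x y a = Sr c v x y a := fun y => by
      rw [S, Sv_zero_of_not_New h, add_zero]
    simp_rw [h1]
    refine sum_le_one_of _ (fun a => Sr_le_one _ _ _) (fun a => Sr_nonneg _ _ _) ?_
    intro y z ha hb
    obtain ⟨_, h4, _, _, h7⟩ := Sr_pos ha
    obtain ⟨_, h4', _, _, h7'⟩ := Sr_pos hb
    exact hc.proper v y z h4.symm h4'.symm (h7.symm.trans h7')

theorem Sv_le' (hκ : 0 < κ) (x y a : V) (hn : 0 < Fintype.card V) :
    Sv c v κ x y a ≤ 1 / (κ * (Fintype.card V : ℝ)) := by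
  by_cases h : Sv c v κ x y a = 0
  · rw [h]; positivity
  · have h1 := (Sv_pos h).2.2.2.2
    have h2 : (0:ℝ) < κ * (Fintype.card V : ℝ) := by positivity
    exact (Sv_le x y a).trans (one_div_le_one_div_of_le h2 h1)

/-- L3 -/
theorem sum_x_le (hc : PC c) (hκ : 0 < κ) (y a : V) : ∑ x, S c v κ x y a ≤ 1 + 1 / κ := by
  classical
  have hn : 0 < Fintype.card V := Fintype.card_pos_iff.2 ⟨v⟩
  simp_rw [S]
  rw [Finset.sum_add_distrib]
  refine add_le_add ?_ ?_
  · refine sum_le_one_of _ (fun a => Sr_le_one _ _ _) (fun a => Sr_nonneg _ _ _) ?_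
    intro x x' hx hx'
    obtain ⟨_, _, _, h6, h7⟩ := Sr_pos hx
    obtain ⟨_, _, _, h6', h7'⟩ := Sr_pos hx'
    refine hc.proper a x x' h6 h6' ?_
    rw [hc.symm a x, hc.symm a x', h7, h7']
  · calc ∑ x, Sv c v κ x y a ≤ ∑ _x : V, 1 / (κ * (Fintype.card V : ℝ)) :=
          Finset.sum_le_sum fun x _ => Sv_le' hκ _ _ _ hn
      _ = 1 / κ := by
          rw [Finset.sum_const, nsmul_eq_mul, Finset.card_univ]
          have : (Fintype.card V : ℝ) ≠ 0 := by positivity
          field_simp

theorem S_le_one (hc : PC c) (x y a : V) : S c v κ x y a ≤ 1 :=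
  (Finset.single_le_sum (f := fun a => S c v κ x y a) (fun a _ => S_nonneg _ _ _)
    (mem_univ a)).trans (sum_a_le hc x y)

/-- the total weight of the steps leaving `x` -/
theorem sum_ya_ge (hc : PC c) (hκ : 0 ≤ κ) {x : V} (hx : x ≠ v) :
    (Fintype.card V : ℝ) - 3 - κ * (Fintype.card V : ℝ) ≤ ∑ y, ∑ a, S c v κ x y a := by
  classical
  rw [Finset.sum_comm]
  set n : ℝ := (Fintype.card V : ℝ) with hn
  set N : ℝ := ((New c v x).card : ℝ) with hN
  set R : Finset V := univ.filter (fun a => a ≠ v ∧ a ≠ x ∧ Old c v (c x a)) with hR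
  have hdis : Disjoint R (New c v x) := by
    rw [Finset.disjoint_left]
    intro a ha hb
    rw [hR, Finset.mem_filter] at ha
    exact (mem_New.1 hb).2.2 ha.2.2.2
  have hU : R ∪ New c v x = (univ.erase v).erase x := by
    ext a
    simp only [hR, Finset.mem_union, Finset.mem_filter, Finset.mem_univ, true_and, mem_New,
      Finset.mem_erase, and_true]
    tauto
  have hcard : (R.card : ℝ) + N = n - 2 := by
    have h1 : (R ∪ New c v x).card = R.card + (New c v x).card :=
      Finset.card_union_of_disjoint hdis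
    have h2 : ((univ.erase v).erase x).card = Fintype.card V - 1 - 1 := by
      rw [Finset.card_erase_of_mem (by simp [hx]), Finset.card_erase_of_mem (mem_univ _),
        Finset.card_univ]
    have h3 : 2 ≤ Fintype.card V := by
      have : ({v, x} : Finset V).card ≤ Fintype.card V := Finset.card_le_univ _
      rwa [Finset.card_pair hx.symm] at this
    rw [hU, h2] at h1
    have h4 : R.card + (New c v x).card + 2 = Fintype.card V := by omega
    have h5 : ((R.card + (New c v x).card + 2 : ℕ) : ℝ) = (Fintype.card V : ℝ) := by rw [h4]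
    push_cast at h5
    linarith
  have hge : ∑ a ∈ R, ∑ y, S c v κ x y a + ∑ a ∈ New c v x, ∑ y, S c v κ x y a ≤
      ∑ a, ∑ y, S c v κ x y a := by
    rw [← Finset.sum_union hdis]
    exact Finset.sum_le_sum_of_subset_of_nonneg (Finset.subset_univ _)
      (fun a _ _ => Finset.sum_nonneg fun y _ => S_nonneg _ _ _)
  have hRge : (R.card : ℝ) ≤ ∑ a ∈ R, ∑ y, S c v κ x y a := by
    have : ∀ a ∈ R, (1:ℝ) ≤ ∑ y, S c v κ x y a := by
      intro a ha
      rw [hR, Finset.mem_filter] at ha
      obtain ⟨_, h1, h2, y, h3, h4⟩ := ha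
      have h5 : (1:ℝ) ≤ S c v κ x y a := by
        have : Sr c v x y a = 1 := by
          unfold Sr
          rw [if_pos ⟨hx, h3, h1, h2, h4.symm⟩]
        rw [S, this]
        linarith [Sv_nonneg (c := c) (v := v) (κ := κ) x y a]
      exact h5.trans (Finset.single_le_sum (f := fun y => S c v κ x y a)
        (fun y _ => S_nonneg _ _ _) (mem_univ y))
    calc (R.card : ℝ) = ∑ a ∈ R, (1:ℝ) := by simp
      _ ≤ _ := Finset.sum_le_sum this
  have hNnn : 0 ≤ ∑ a ∈ New c v x, ∑ y, S c v κ x y a :=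
    Finset.sum_nonneg fun a _ => Finset.sum_nonneg fun y _ => S_nonneg _ _ _
  have hn0 : 0 ≤ n := by positivity
  by_cases hb : κ * n ≤ N
  · have hNge : N - 1 ≤ ∑ a ∈ New c v x, ∑ y, S c v κ x y a := by
      rcases Nat.eq_zero_or_pos (New c v x).card with h0 | h0
      · have : N = 0 := by rw [hN, h0]; simp
        linarith
      have hNpos : (0:ℝ) < N := by rw [hN]; exact_mod_cast h0
      have : ∀ a ∈ New c v x, (N - 1) / N ≤ ∑ y, S c v κ x y a := by
        intro a ha
        have h1 : ∀ y ∈ (Miss c v x).erase a, 1 / N ≤ S c v κ x y a := by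
          intro y hy
          rw [Finset.mem_erase] at hy
          have : Sv c v κ x y a = 1 / N := by
            unfold Sv
            rw [if_pos ⟨hx, hy.2, ha, hy.1.symm, hb⟩]
          rw [S, this]
          linarith [Sr_nonneg (c := c) (v := v) x y a]
        have h2 : (((Miss c v x).erase a).card : ℝ) ≥ N - 1 := by
          have h3 : (Miss c v x).card - 1 ≤ ((Miss c v x).erase a).card :=
            Finset.pred_card_le_card_erase
          rw [card_Miss hc hx] at h3
          have h4 : (New c v x).card ≤ ((Miss c v x).erase a).card + 1 := by omega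
          have h5 : ((New c v x).card : ℝ) ≤ (((Miss c v x).erase a).card + 1 : ℕ) := by
            exact_mod_cast h4
          push_cast at h5
          linarith
        calc (N - 1) / N ≤ (((Miss c v x).erase a).card : ℝ) * (1 / N) := by
              rw [mul_one_div]
              exact div_le_div_of_nonneg_right h2 hNpos.le
          _ = ∑ y ∈ (Miss c v x).erase a, 1 / N := by rw [Finset.sum_const, nsmul_eq_mul]
          _ ≤ ∑ y ∈ (Miss c v x).erase a, S c v κ x y a := Finset.sum_le_sum h1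
          _ ≤ _ := Finset.sum_le_sum_of_subset_of_nonneg (Finset.subset_univ _)
              (fun y _ _ => S_nonneg _ _ _)
      calc N - 1 = ∑ a ∈ New c v x, (N - 1) / N := by
            rw [Finset.sum_const, nsmul_eq_mul, ← hN]
            field_simp
        _ ≤ _ := Finset.sum_le_sum this
    nlinarith
  · push Not at hb
    linarith

end

end Pool.Agent.TH437.SP
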