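import Pool.Agent.H89R2.AG.NA
import Pool.Agent.H18R2.AG.NF
import Pool.Agent.H895R2.AG.NE
import Pool.Agent.H204R2.AG.NG
import Pool.Agent.H459R2.AG.NC
import Pool.Agent.H89R2.AG.NB
import Pool.Agent.H115R4.ND2

/-!
# The weighted nibble theorem (from the starting files)
-/

set_option autoImplicit false

namespace Pool.Agent.TH437.SP

open H115R4

theorem nibble_T : nibble :=
  nibble_of (nibS_all_of (one_round_of (Ex_iso_of Ex_pick_proof)
    (Ex_wn_of (second_moment_of' cv_bd_proof sp_lower_proof (Ex_sp_of Ex_surv_proof))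
      sp_lower_proof (Ex_sp_of Ex_surv_proof) Ex_mono_proof cv_bd_proof)
    wn_good_proof Ex_exists_proof cv_bd_proof))

end Pool.Agent.TH437.SP
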