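import Pool.Agent.TH437.SP.Tri2
import Pool.Agent.TH437.SP.Nib

/-!
# Almost perfect families of triangular gadgets
-/

set_option autoImplicit false
set_option linter.unusedSectionVars false

namespace Pool.Agent.TH437.SP

open Finset

section
variable {V K : Type} [Fintype V] [DecidableEq V] {c : V → V → K} {v : V} {κ : ℝ}

theorem TS_ab (hc : PC c) (φ : V → V → V → V → ℝ) (hφ : ∀ x y a b, 0 ≤ φ x y a b)
    (h : ∀ x y a, ∑ b, (∑ z, S c v κ y z b) * φ x y a b ≤ 1) :
    TS c v κ (fun x y _ a b _ => φ x y a b) ≤ (Fintype.card V : ℝ) ^ 2 := by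
  unfold TS
  have h1 : ∑ x, ∑ y, ∑ z, ∑ a, ∑ b, ∑ d,
      S c v κ x y a * S c v κ y z b * S c v κ z x d * φ x y a b ≤
      ∑ x, ∑ y, ∑ z, ∑ a, ∑ b, S c v κ x y a * (S c v κ y z b * φ x y a b) := by
    refine Finset.sum_le_sum fun x _ => ?_
    refine Finset.sum_le_sum fun y _ => ?_
    refine Finset.sum_le_sum fun z _ => ?_
    refine Finset.sum_le_sum fun a _ => ?_
    refine Finset.sum_le_sum fun b _ => ?_
    have h2 : ∑ d, S c v κ x y a * S c v κ y z b * S c v κ z x d * φ x y a b =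
        (S c v κ x y a * (S c v κ y z b * φ x y a b)) * ∑ d, S c v κ z x d := by
      rw [Finset.mul_sum]
      refine Finset.sum_congr rfl fun d _ => ?_
      ring
    rw [h2]
    exact mul_le_of_le_one_right (mul_nonneg (S_nonneg _ _ _)
      (mul_nonneg (S_nonneg _ _ _) (hφ _ _ _ _))) (sum_a_le hc z x)
  refine h1.trans ?_
  have h3 : ∀ x y, ∑ z, ∑ a, ∑ b, S c v κ x y a * (S c v κ y z b * φ x y a b) ≤ 1 := by
    intro x y
    rw [Finset.sum_comm]
    have h4 : ∀ a, ∑ z, ∑ b, S c v κ x y a * (S c v κ y z b * φ x y a b) =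
        S c v κ x y a * ∑ b, (∑ z, S c v κ y z b) * φ x y a b := by
      intro a
      rw [Finset.sum_comm, Finset.mul_sum]
      refine Finset.sum_congr rfl fun b _ => ?_
      rw [Finset.sum_mul, Finset.mul_sum]
    simp_rw [h4]
    calc ∑ a, S c v κ x y a * ∑ b, (∑ z, S c v κ y z b) * φ x y a b
        ≤ ∑ a, S c v κ x y a :=
          Finset.sum_le_sum fun a _ => mul_le_of_le_one_right (S_nonneg _ _ _) (h x y a)
      _ ≤ 1 := sum_a_le hc x y
  calc ∑ x, ∑ y, ∑ z, ∑ a, ∑ b, S c v κ x y a * (S c v κ y z b * φ x y a b)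
      ≤ ∑ _x : V, ∑ _y : V, (1:ℝ) :=
        Finset.sum_le_sum fun x _ => Finset.sum_le_sum fun y _ => h3 x y
    _ = (Fintype.card V : ℝ) ^ 2 := by simp [sq]

open Classical in
/-- coincidence indicators -/
noncomputable def Ph (c : V → V → K) (x y a b : V) : ℝ :=
  (if b = x then 1 else 0) + (if a = b then 1 else 0) + (if c x a = c y b then 1 else 0)

theorem TS_Ph (hc : PC c) :
    TS c v κ (fun x y _ a b _ => Ph c x y a b) ≤ 3 * (Fintype.card V : ℝ) ^ 2 := by
  classical
  unfold Ph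
  rw [TS_add (fun x y _ a b _ => (if b = x then (1:ℝ) else 0) + (if a = b then 1 else 0))
    (fun x y _ a b _ => if c x a = c y b then (1:ℝ) else 0),
    TS_add (fun x y _ a b _ => if b = x then (1:ℝ) else 0) (fun x y _ a b _ => if a = b then (1:ℝ) else 0)]
  have h1 : TS c v κ (fun x y _ a b _ => if b = x then (1:ℝ) else 0) ≤ (Fintype.card V : ℝ) ^ 2 := by
    refine TS_ab hc (fun x y a b => if b = x then (1:ℝ) else 0)
      (fun x y a b => by split_ifs <;> norm_num) ?_
    intro x y a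
    simp only [mul_ite, mul_one, mul_zero, Finset.sum_ite_eq', Finset.mem_univ, if_true]
    exact sum_y_le hc y x
  have h2 : TS c v κ (fun x y _ a b _ => if a = b then (1:ℝ) else 0) ≤ (Fintype.card V : ℝ) ^ 2 := by
    refine TS_ab hc (fun x y a b => if a = b then (1:ℝ) else 0)
      (fun x y a b => by split_ifs <;> norm_num) ?_
    intro x y a
    simp only [mul_ite, mul_one, mul_zero, Finset.sum_ite_eq, Finset.mem_univ, if_true]
    exact sum_y_le hc y a
  have h3 : TS c v κ (fun x y _ a b _ => if c x a = c y b then (1:ℝ) else 0) ≤ (Fintype.card V : ℝ) ^ 2 := by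
    refine TS_ab hc (fun x y a b => if c x a = c y b then (1:ℝ) else 0)
      (fun x y a b => by split_ifs <;> norm_num) ?_
    intro x y a
    have hs : ∀ b, 0 ≤ ∑ z, S c v κ y z b := fun b => Finset.sum_nonneg fun z _ => S_nonneg _ _ _
    refine sum_le_one_of _ ?_ ?_ ?_
    · intro b
      skip
      split_ifs
      · rw [mul_one]; exact sum_y_le hc y b
      · rw [mul_zero]; exact zero_le_one
    · intro b
      skip
      split_ifs
      · rw [mul_one]; exact hs b
      · rw [mul_zero]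
    · intro b b' hb hb'
      have hne : ∀ b, (∑ z, S c v κ y z b) ≠ 0 → b ≠ y := by
        intro b h h1
        apply h
        refine Finset.sum_eq_zero fun z _ => ?_
        by_contra h
        exact (S_pos hc h).2.2.2.1 h1
      have h4 := hne b (left_ne_zero_of_mul hb)
      have h5 := hne b' (left_ne_zero_of_mul hb')
      have h6 : c x a = c y b := by
        by_contra h
        exact right_ne_zero_of_mul hb (if_neg h)
      have h7 : c x a = c y b' := by
        by_contra h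
        exact right_ne_zero_of_mul hb' (if_neg h)
      exact hc.proper y b b' h4.symm h5.symm (h6.symm.trans h7)
  linarith

/-- coincidence -/
def Bad (c : V → V → K) (x y a b : V) : Prop := b = x ∨ a = b ∨ c x a = c y b

/-- no coincidences -/
def Vd (c : V → V → K) (x y z a b d : V) : Prop :=
  ¬ Bad c x y a b ∧ ¬ Bad c y z b d ∧ ¬ Bad c z x d a

open Classical in
theorem TS_Vd (hc : PC c) (hκ : 0 ≤ κ) :
    (1 - 3 * κ) * (Fintype.card V : ℝ) ^ 3 - 21 * (Fintype.card V : ℝ) ^ 2 ≤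
      TS c v κ (fun x y z a b d => if Vd c x y z a b d then 1 else 0) := by
  have hPn : ∀ x y a b : V, 0 ≤ Ph c x y a b := by
    intro x y a b
    unfold Ph
    refine add_nonneg (add_nonneg ?_ ?_) ?_ <;> split_ifs <;> norm_num
  have hPb : ∀ x y a b : V, Bad c x y a b → 1 ≤ Ph c x y a b := by
    intro x y a b h
    unfold Ph
    have h1 : (0:ℝ) ≤ if b = x then 1 else 0 := by split_ifs <;> norm_num
    have h2 : (0:ℝ) ≤ if a = b then 1 else 0 := by split_ifs <;> norm_num
    have h3 : (0:ℝ) ≤ if c x a = c y b then 1 else 0 := by split_ifs <;> norm_num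
    rcases h with h | h | h
    · have : (if b = x then (1:ℝ) else 0) = 1 := if_pos h
      linarith
    · have : (if a = b then (1:ℝ) else 0) = 1 := if_pos h
      linarith
    · have : (if c x a = c y b then (1:ℝ) else 0) = 1 := if_pos h
      linarith
  have h1 : TS c v κ (fun _ _ _ _ _ _ => 1) ≤
      TS c v κ (fun x y z a b d => (if Vd c x y z a b d then 1 else 0) +
        ((Ph c x y a b + Ph c y z b d) + Ph c z x d a)) := by
    refine TS_mono fun x y z a b d => ?_
    by_cases h : Vd c x y z a b d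
    · rw [if_pos h]
      linarith [hPn x y a b, hPn y z b d, hPn z x d a]
    · rw [if_neg h]
      unfold Vd at h
      by_cases h2 : Bad c x y a b
      · linarith [hPn y z b d, hPn z x d a, hPb _ _ _ _ h2]
      · by_cases h3 : Bad c y z b d
        · linarith [hPn x y a b, hPn z x d a, hPb _ _ _ _ h3]
        · have h4 : Bad c z x d a := by
            by_contra h5
            exact h ⟨h2, h3, h5⟩
          linarith [hPn x y a b, hPn y z b d, hPb _ _ _ _ h4]
  rw [TS_add (fun x y z a b d => if Vd c x y z a b d then 1 else 0)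
    (fun x y z a b d => (Ph c x y a b + Ph c y z b d) + Ph c z x d a),
    TS_add (fun x y z a b d => Ph c x y a b + Ph c y z b d) (fun x y z a b d => Ph c z x d a),
    TS_add (fun x y z a b d => Ph c x y a b) (fun x y z a b d => Ph c y z b d)] at h1
  have h2 : TS c v κ (fun x y z a b d => Ph c y z b d) =
      TS c v κ (fun x y z a b d => Ph c x y a b) := TS_rot (fun x y z a b d => Ph c x y a b)
  have h3 : TS c v κ (fun x y z a b d => Ph c z x d a) =
      TS c v κ (fun x y z a b d => Ph c y z b d) := TS_rot (fun x y z a b d => Ph c y z b d)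
  rw [h3, h2] at h1
  have h4 := TS_Ph (v := v) (κ := κ) hc
  have h5 := TS_one (v := v) hc hκ
  linarith

open Classical in
/-- tokens of a family of pairs -/
noncomputable def TokP (c : V → V → K) (v : V) (P : Finset (V × V)) : Finset (V ⊕ K) :=
  P.image (fun p => Sum.inl p.1) ∪ P.image (fun p => Sum.inl p.2) ∪
    (P.filter (fun p => ¬ Old c v (c p.1 p.2))).image (fun p => Sum.inr (c p.1 p.2))

theorem mem_TokP {P : Finset (V × V)} {τ : V ⊕ K} :
    τ ∈ TokP c v P ↔ ∃ p ∈ P, τ = Sum.inl p.1 ∨ τ = Sum.inl p.2 ∨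
      (τ = Sum.inr (c p.1 p.2) ∧ ¬ Old c v (c p.1 p.2)) := by
  classical
  unfold TokP
  simp only [Finset.mem_union, Finset.mem_image, Finset.mem_filter]
  constructor
  · rintro ((⟨p, hp, rfl⟩ | ⟨p, hp, rfl⟩) | ⟨p, ⟨hp, h⟩, rfl⟩)
    · exact ⟨p, hp, Or.inl rfl⟩
    · exact ⟨p, hp, Or.inr (Or.inl rfl)⟩
    · exact ⟨p, hp, Or.inr (Or.inr ⟨rfl, h⟩)⟩
  · rintro ⟨p, hp, rfl | rfl | ⟨rfl, h⟩⟩
    · exact Or.inl (Or.inl ⟨p, hp, rfl⟩)
    · exact Or.inl (Or.inr ⟨p, hp, rfl⟩)
    · exact Or.inr ⟨p, ⟨hp, h⟩, rfl⟩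

theorem card_TokP (P : Finset (V × V)) : (TokP c v P).card ≤ 3 * P.card := by
  classical
  unfold TokP
  refine (Finset.card_union_le _ _).trans ?_
  have h1 := Finset.card_union_le (P.image (fun p => (Sum.inl p.1 : V ⊕ K)))
    (P.image (fun p => (Sum.inl p.2 : V ⊕ K)))
  have h2 : (P.image (fun p => (Sum.inl p.1 : V ⊕ K))).card ≤ P.card := Finset.card_image_le
  have h3 : (P.image (fun p => (Sum.inl p.2 : V ⊕ K))).card ≤ P.card := Finset.card_image_le
  have h4 : ((P.filter (fun p => ¬ Old c v (c p.1 p.2))).image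
      (fun p => (Sum.inr (c p.1 p.2) : V ⊕ K))).card ≤ P.card :=
    Finset.card_image_le.trans (Finset.card_filter_le _ _)
  omega

theorem apart_of_disjoint {P Q : Finset (V × V)} (h : Disjoint (TokP c v P) (TokP c v Q)) :
    Apart c v P Q := by
  rw [Finset.disjoint_left] at h
  intro p hp q hq
  refine ⟨?_, ?_, ?_, ?_, ?_⟩
  · intro h1
    exact h (mem_TokP.2 ⟨p, hp, Or.inl rfl⟩) (mem_TokP.2 ⟨q, hq, Or.inl (by rw [h1])⟩)
  · intro h1
    exact h (mem_TokP.2 ⟨p, hp, Or.inl rfl⟩) (mem_TokP.2 ⟨q, hq, Or.inr (Or.inl (by rw [h1]))⟩)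
  · intro h1
    exact h (mem_TokP.2 ⟨p, hp, Or.inr (Or.inl rfl)⟩) (mem_TokP.2 ⟨q, hq, Or.inl (by rw [h1])⟩)
  · intro h1
    exact h (mem_TokP.2 ⟨p, hp, Or.inr (Or.inl rfl)⟩)
      (mem_TokP.2 ⟨q, hq, Or.inr (Or.inl (by rw [h1]))⟩)
  · intro h1 h2
    refine h (mem_TokP.2 ⟨p, hp, Or.inr (Or.inr ⟨rfl, h1⟩)⟩)
      (mem_TokP.2 ⟨q, hq, Or.inr (Or.inr ⟨by rw [h2], ?_⟩)⟩)
    rw [← h2]; exact h1

/-- the triangular gadget -/
def gad (x y z a b d : V) : Finset (V × V) := {(x, a), (y, b), (z, d)}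

theorem gad_closed (hc : PC c) {x y z a b d : V} (h1 : S c v κ x y a ≠ 0)
    (h2 : S c v κ y z b ≠ 0) (h3 : S c v κ z x d ≠ 0) (h : Vd c x y z a b d) :
    Closed c v (gad x y z a b d) ∧ (gad x y z a b d).card = 3 := by
  obtain ⟨hx, hy, ha, hax, hay, hxy, hl1⟩ := S_pos hc h1
  obtain ⟨_, hz, hb, hby, hbz, hyz, hl2⟩ := S_pos hc h2
  obtain ⟨_, _, hd, hdz, hdx, hzx, hl3⟩ := S_pos hc h3
  unfold Vd Bad at h
  push Not at h
  obtain ⟨⟨hbx, hab, hc1⟩, ⟨hdy, hbd, hc2⟩, ⟨haz, hda, hc3⟩⟩ := h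
  have hm : ∀ p, p ∈ gad x y z a b d ↔ p = (x, a) ∨ p = (y, b) ∨ p = (z, d) := by
    intro p; simp [gad]
  refine ⟨⟨?_, ?_, ?_, ?_, ?_, ?_, ?_⟩, ?_⟩
  · intro p hp
    rcases (hm p).1 hp with rfl | rfl | rfl <;> assumption
  · intro p hp
    rcases (hm p).1 hp with rfl | rfl | rfl <;> assumption
  · intro p hp q hq he
    rcases (hm p).1 hp with rfl | rfl | rfl <;> rcases (hm q).1 hq with rfl | rfl | rfl <;>
      simp_all
  · intro p hp q hq he
    rcases (hm p).1 hp with rfl | rfl | rfl <;> rcases (hm q).1 hq with rfl | rfl | rfl <;>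
      simp_all
  · intro p hp q hq he
    rcases (hm p).1 hp with rfl | rfl | rfl <;> rcases (hm q).1 hq with rfl | rfl | rfl <;>
      simp_all
  · intro p hp q hq he
    rcases (hm p).1 hp with rfl | rfl | rfl <;> rcases (hm q).1 hq with rfl | rfl | rfl <;>
      simp_all
  · intro p hp ho
    rcases (hm p).1 hp with rfl | rfl | rfl
    · rcases hl1 with h | h
      · exact ⟨(y, b), (hm _).2 (Or.inr (Or.inl rfl)), h.symm⟩
      · exact absurd ho h
    · rcases hl2 with h | h
      · exact ⟨(z, d), (hm _).2 (Or.inr (Or.inr rfl)), h.symm⟩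
      · exact absurd ho h
    · rcases hl3 with h | h
      · exact ⟨(x, a), (hm _).2 (Or.inl rfl), h.symm⟩
      · exact absurd ho h
  · unfold gad
    rw [Finset.card_insert_of_notMem, Finset.card_pair]
    · intro h; exact hyz (congrArg Prod.fst h)
    · simp only [Finset.mem_insert, Finset.mem_singleton, not_or]
      exact ⟨fun h => hxy (congrArg Prod.fst h), fun h => hzx (congrArg Prod.fst h).symm⟩

end

end Pool.Agent.TH437.SP
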