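import Pool.Agent.TH437.SP.Main

/-!
# Almost perfect families of triangular gadgets: the nibble
-/

set_option autoImplicit false
set_option linter.unusedSectionVars false

namespace Pool.Agent.TH437.SP

open Finset

section
variable {V K : Type} [Fintype V] [DecidableEq V] {c : V → V → K} {v : V} {κ : ℝ}

theorem pp_ge {τ : V ⊕ K} {x a : V} (h : τ = Sum.inl x ∨ τ = Sum.inl a ∨
    (τ = Sum.inr (c x a) ∧ ¬ Old c v (c x a))) : 1 ≤ pp c v τ x a := by
  unfold pp
  rcases h with h | h | h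
  · have : co τ x = 1 := if_pos h
    linarith [ed_nonneg (c := c) (v := v) τ x a]
  · have : ed c v τ x a = 1 := if_pos (Or.inl h)
    linarith [co_nonneg τ x]
  · have : ed c v τ x a = 1 := if_pos (Or.inr h)
    linarith [co_nonneg τ x]

theorem pl_nonneg (τ : V ⊕ K) (x y z a b d : V) : 0 ≤ pl c v τ x y z a b d :=
  add_nonneg (add_nonneg (pp_nonneg _ _ _) (pp_nonneg _ _ _)) (pp_nonneg _ _ _)

theorem pl_ge {τ : V ⊕ K} {x y z a b d : V} (h : τ ∈ TokP c v (gad x y z a b d)) :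
    1 ≤ pl c v τ x y z a b d := by
  obtain ⟨p, hp, h1⟩ := mem_TokP.1 h
  have hm : p = (x, a) ∨ p = (y, b) ∨ p = (z, d) := by simpa [gad] using hp
  have hx := pp_nonneg (c := c) (v := v) τ x a
  have hy := pp_nonneg (c := c) (v := v) τ y b
  have hz := pp_nonneg (c := c) (v := v) τ z d
  unfold pl
  rcases hm with rfl | rfl | rfl
  · linarith [pp_ge (c := c) (v := v) h1]
  · linarith [pp_ge (c := c) (v := v) h1]
  · linarith [pp_ge (c := c) (v := v) h1]

/-- six-tuples -/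
abbrev Six (V : Type) : Type := V × V × V × V × V × V

/-- gadget of a six-tuple -/
def gd (e : Six V) : Finset (V × V) :=
  gad e.1 e.2.1 e.2.2.1 e.2.2.2.1 e.2.2.2.2.1 e.2.2.2.2.2

/-- the product weight -/
noncomputable def FF (c : V → V → K) (v : V) (κ : ℝ) (e : Six V) : ℝ :=
  S c v κ e.1 e.2.1 e.2.2.2.1 * S c v κ e.2.1 e.2.2.1 e.2.2.2.2.1 *
    S c v κ e.2.2.1 e.1 e.2.2.2.2.2

theorem FF_nonneg (e : Six V) : 0 ≤ FF c v κ e :=
  mul_nonneg (mul_nonneg (S_nonneg _ _ _) (S_nonneg _ _ _)) (S_nonneg _ _ _)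

theorem FF_le (hc : PC c) (e : Six V) : FF c v κ e ≤ 1 :=
  mul_le_one₀ (mul_le_one₀ (S_le_one hc _ _ _) (S_nonneg _ _ _) (S_le_one hc _ _ _))
    (S_nonneg _ _ _) (S_le_one hc _ _ _)

theorem sum_six (φ : V → V → V → V → V → V → ℝ) :
    ∑ e : Six V, FF c v κ e * φ e.1 e.2.1 e.2.2.1 e.2.2.2.1 e.2.2.2.2.1 e.2.2.2.2.2 =
      TS c v κ φ := by
  unfold TS FF
  simp only [Fintype.sum_prod_type]

open Classical in
/-- the weights of the nibble -/
noncomputable def wt (c : V → V → K) (v : V) (κ : ℝ) (e : Six V) : ℝ :=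
  FF c v κ e * (if Vd c e.1 e.2.1 e.2.2.1 e.2.2.2.1 e.2.2.2.2.1 e.2.2.2.2.2 then 1 else 0) /
    (6 * (Fintype.card V : ℝ) ^ 2)

theorem wt_nonneg (e : Six V) : 0 ≤ wt c v κ e := by
  unfold wt
  refine div_nonneg (mul_nonneg (FF_nonneg e) ?_) (by positivity)
  split_ifs <;> norm_num

theorem wt_le (e : Six V) : wt c v κ e ≤ FF c v κ e / (6 * (Fintype.card V : ℝ) ^ 2) := by
  unfold wt
  refine div_le_div_of_nonneg_right (mul_le_of_le_one_right (FF_nonneg e) ?_) (by positivity)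
  split_ifs <;> norm_num

theorem wt_pos (hc : PC c) {e : Six V} (h : 0 < wt c v κ e) :
    Closed c v (gd e) ∧ (gd e).card = 3 := by
  unfold wt at h
  have h1 : FF c v κ e ≠ 0 := by
    intro h2; rw [h2] at h; simp at h
  have h2 : Vd c e.1 e.2.1 e.2.2.1 e.2.2.2.1 e.2.2.2.2.1 e.2.2.2.2.2 := by
    by_contra h3; rw [if_neg h3] at h; simp at h
  unfold FF at h1
  exact gad_closed hc (left_ne_zero_of_mul (left_ne_zero_of_mul h1))
    (right_ne_zero_of_mul (left_ne_zero_of_mul h1)) (right_ne_zero_of_mul h1) h2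

open Classical in
theorem wt_deg (hc : PC c) (τ : V ⊕ K) :
    ∑ e ∈ univ.filter (fun e : Six V => τ ∈ TokP c v (gd e)), wt c v κ e ≤ 1 := by
  have hN : 0 < (Fintype.card V : ℝ) := by
    have : 0 < Fintype.card V := Fintype.card_pos_iff.2 ⟨v⟩
    exact_mod_cast this
  rw [Finset.sum_filter]
  have h1 : ∀ e : Six V, (if τ ∈ TokP c v (gd e) then wt c v κ e else 0) ≤
      (FF c v κ e * pl c v τ e.1 e.2.1 e.2.2.1 e.2.2.2.1 e.2.2.2.2.1 e.2.2.2.2.2) / (6 * (Fintype.card V : ℝ) ^ 2) := by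
    intro e
    split_ifs with h
    · refine (wt_le e).trans (div_le_div_of_nonneg_right ?_ (by positivity))
      exact le_mul_of_one_le_right (FF_nonneg e) (pl_ge h)
    · exact div_nonneg (mul_nonneg (FF_nonneg e) (pl_nonneg _ _ _ _ _ _ _)) (by positivity)
  refine (Finset.sum_le_sum fun e _ => h1 e).trans ?_
  rw [← Finset.sum_div, sum_six (pl c v τ), div_le_one (by positivity)]
  exact TS_pl hc τ

open Classical in
theorem wt_codeg (hc : PC c) (hκ : 0 < κ) {τ τ' : V ⊕ K} (hτ : τ ≠ τ') :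
    ∑ e ∈ univ.filter (fun e : Six V => τ ∈ TokP c v (gd e) ∧ τ' ∈ TokP c v (gd e)),
      wt c v κ e ≤ (33 + 6 / κ) / (6 * (Fintype.card V : ℝ)) := by
  have hN : 0 < (Fintype.card V : ℝ) := by
    have : 0 < Fintype.card V := Fintype.card_pos_iff.2 ⟨v⟩
    exact_mod_cast this
  rw [Finset.sum_filter]
  have h1 : ∀ e : Six V, (if τ ∈ TokP c v (gd e) ∧ τ' ∈ TokP c v (gd e) then wt c v κ e else 0) ≤
      (FF c v κ e * (pl c v τ e.1 e.2.1 e.2.2.1 e.2.2.2.1 e.2.2.2.2.1 e.2.2.2.2.2 *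
        pl c v τ' e.1 e.2.1 e.2.2.1 e.2.2.2.1 e.2.2.2.2.1 e.2.2.2.2.2)) / (6 * (Fintype.card V : ℝ) ^ 2) := by
    intro e
    split_ifs with h
    · refine (wt_le e).trans (div_le_div_of_nonneg_right ?_ (by positivity))
      exact le_mul_of_one_le_right (FF_nonneg e) (one_le_mul_of_one_le_of_one_le (pl_ge h.1) (pl_ge h.2))
    · exact div_nonneg (mul_nonneg (FF_nonneg e)
        (mul_nonneg (pl_nonneg _ _ _ _ _ _ _) (pl_nonneg _ _ _ _ _ _ _))) (by positivity)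
  refine (Finset.sum_le_sum fun e _ => h1 e).trans ?_
  rw [← Finset.sum_div, sum_six (fun x y z a b d => pl c v τ x y z a b d * pl c v τ' x y z a b d)]
  have h2 := TS_pl2 (v := v) hc hκ hτ
  calc TS c v κ (fun x y z a b d => pl c v τ x y z a b d * pl c v τ' x y z a b d) / (6 * (Fintype.card V : ℝ) ^ 2)
      ≤ ((33 + 6 / κ) * (Fintype.card V : ℝ)) / (6 * (Fintype.card V : ℝ) ^ 2) := div_le_div_of_nonneg_right h2 (by positivity)
    _ = (33 + 6 / κ) / (6 * (Fintype.card V : ℝ)) := by field_simp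

open Classical in
theorem wt_total (hc : PC c) (hκ : 0 ≤ κ) :
    ((1 - 3 * κ) * (Fintype.card V : ℝ) - 21) / 6 ≤ ∑ e : Six V, wt c v κ e := by
  have hN : 0 < (Fintype.card V : ℝ) := by
    have : 0 < Fintype.card V := Fintype.card_pos_iff.2 ⟨v⟩
    exact_mod_cast this
  unfold wt
  rw [← Finset.sum_div, sum_six (fun x y z a b d => if Vd c x y z a b d then 1 else 0),
    le_div_iff₀ (by positivity)]
  have h := TS_Vd (v := v) hc hκ
  calc ((1 - 3 * κ) * (Fintype.card V : ℝ) - 21) / 6 * (6 * (Fintype.card V : ℝ) ^ 2) = (1 - 3 * κ) * (Fintype.card V : ℝ) ^ 3 - 21 * (Fintype.card V : ℝ) ^ 2 := by ring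
    _ ≤ _ := h

end

theorem exists_gadgets {ε : ℝ} (hε : 0 < ε) (hε1 : ε ≤ 1) :
    ∃ n₀ : ℕ, ∀ (V K : Type) [Fintype V] [DecidableEq V] (c : V → V → K) (_ : PC c) (v : V),
      n₀ ≤ Fintype.card V → ∃ M : Finset (Six V),
        (∀ e ∈ M, Closed c v (gd e) ∧ (gd e).card = 3) ∧
        (∀ e ∈ M, ∀ f ∈ M, e ≠ f → Disjoint (TokP c v (gd e)) (TokP c v (gd f))) ∧
        (1 - ε) * (Fintype.card V : ℝ) / 6 ≤ (M.card : ℝ) := by
  obtain ⟨κ', hκ', hnib⟩ := nibble_T 9 (ε / 4) (by linarith)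
  set κ : ℝ := ε / 12 with hκ
  have hκ0 : 0 < κ := by rw [hκ]; linarith
  obtain ⟨n₀, hn₀⟩ := exists_nat_ge (42 / ε + (33 + 6 / κ) / κ' + 1)
  refine ⟨n₀, ?_⟩
  intro V K _ _ c hc v hn
  classical
  have hNge : 42 / ε + (33 + 6 / κ) / κ' + 1 ≤ (Fintype.card V : ℝ) :=
    hn₀.trans (by exact_mod_cast hn)
  set n : ℝ := (Fintype.card V : ℝ) with hn'
  have h1 : 0 < (33 + 6 / κ) / κ' := by positivity
  have h2 : 0 < 42 / ε := by positivity
  have hn1 : 1 ≤ n := by linarith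
  have hn2 : 42 / ε ≤ n := by linarith
  have hn3 : (33 + 6 / κ) / κ' ≤ n := by linarith
  have hn4 : 42 ≤ n * ε := by rwa [div_le_iff₀ hε] at hn2
  have hn5 : 33 + 6 / κ ≤ n * κ' := by rwa [div_le_iff₀ hκ'] at hn3
  have h6 : 0 < 6 / κ := by positivity
  obtain ⟨M, hM1, hM2, hM3⟩ := hnib (Six V) (V ⊕ K) (fun e => TokP c v (gd e)) (wt c v κ)
    (fun e => wt_nonneg e)
    (by
      intro e
      exact ⟨Sum.inl e.1, mem_TokP.2 ⟨(e.1, e.2.2.2.1), by simp [gd, gad], Or.inl rfl⟩⟩)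
    (by
      intro e
      refine (card_TokP _).trans ?_
      have : (gd e).card ≤ 3 := Finset.card_le_three
      omega)
    (fun τ => by
      have := wt_deg (c := c) (v := v) (κ := κ) hc τ
      convert this using 2)
    (fun τ τ' hτ => by
      have := wt_codeg (c := c) (v := v) hc hκ0 hτ
      refine le_trans (le_of_eq ?_) (this.trans ?_)
      · congr 1
      · rw [div_le_iff₀ (by linarith)]
        nlinarith)
    (fun e => by
      refine (wt_le e).trans ?_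
      have h7 := FF_le (v := v) (κ := κ) hc e
      rw [div_le_iff₀ (by positivity)]
      have h8 : 1 ≤ n * κ' := by linarith
      nlinarith [mul_nonneg (by linarith : (0:ℝ) ≤ n) (by linarith : (0:ℝ) ≤ n * κ' - 1)])
  refine ⟨M, fun e he => wt_pos hc (hM2 e he), fun e he f hf hef => hM1 e he f hf hef, ?_⟩
  refine le_trans ?_ hM3
  have h9 := wt_total (v := v) hc hκ0.le
  rw [← hn'] at h9
  have h10 : (1 - ε / 4) * (((1 - 3 * κ) * n - 21) / 6) ≤ (1 - ε / 4) * ∑ e : Six V, wt c v κ e :=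
    mul_le_mul_of_nonneg_left h9 (by linarith)
  refine le_trans ?_ h10
  rw [hκ]
  nlinarith [mul_nonneg hε.le (by linarith : (0:ℝ) ≤ n)]

end Pool.Agent.TH437.SP
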