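import Pool.Agent.TH437.SP.Frac

/-!
# Closed families of a prescribed small size
-/

set_option autoImplicit false
set_option linter.unusedSectionVars false

namespace Pool.Agent.TH437.SP

open Finset

section
variable {V K : Type} [Fintype V] [DecidableEq V] {c : V → V → K} {v : V}

/-- an open chain: all pairs matched, `e` is the unmatched end, the colour `c v s` is unused -/
structure Opn (c : V → V → K) (v : V) (P : Finset (V × V)) (s e : V) : Prop where
  s_ne : s ≠ v
  e_ne : e ≠ v
  fst_ne : ∀ p ∈ P, p.1 ≠ v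
  snd_ne : ∀ p ∈ P, p.2 ≠ v
  fst_inj : ∀ p ∈ P, ∀ q ∈ P, p.1 = q.1 → p = q
  snd_inj : ∀ p ∈ P, ∀ q ∈ P, p.2 = q.2 → p = q
  disj : ∀ p ∈ P, ∀ q ∈ P, p.1 ≠ q.2
  e_fst : ∀ p ∈ P, p.1 ≠ e
  e_snd : ∀ p ∈ P, p.2 ≠ e
  s_mem : s = e ∨ ∃ p ∈ P, p.1 = s
  col_inj : ∀ p ∈ P, ∀ q ∈ P, c p.1 p.2 = c q.1 q.2 → p = q
  label : ∀ p ∈ P, ∃ y, (y = e ∨ ∃ q ∈ P, q.1 = y) ∧ y ≠ s ∧ y ≠ v ∧ c p.1 p.2 = c v y

/-- the vertices of a family together with `e` and `v` -/
def vs (P : Finset (V × V)) (v e : V) : Finset V :=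
  insert v (insert e (P.image Prod.fst ∪ P.image Prod.snd))

theorem card_vs (P : Finset (V × V)) (v e : V) : (vs P v e).card ≤ 2 * P.card + 2 := by
  unfold vs
  have h1 := Finset.card_insert_le v (insert e (P.image Prod.fst ∪ P.image Prod.snd))
  have h2 := Finset.card_insert_le e (P.image Prod.fst ∪ P.image Prod.snd)
  have h3 := Finset.card_union_le (P.image Prod.fst) (P.image Prod.snd)
  have h4 : (P.image Prod.fst).card ≤ P.card := Finset.card_image_le
  have h5 : (P.image Prod.snd).card ≤ P.card := Finset.card_image_le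
  omega

theorem not_mem_vs {P : Finset (V × V)} {v e u : V} :
    u ∉ vs P v e ↔ u ≠ v ∧ u ≠ e ∧ (∀ p ∈ P, p.1 ≠ u) ∧ ∀ p ∈ P, p.2 ≠ u := by
  unfold vs
  simp only [Finset.mem_insert, Finset.mem_union, Finset.mem_image, not_or, not_exists, not_and]
  

theorem Opn.start {s : V} (hs : s ≠ v) : Opn c v ∅ s s := by
  refine ⟨hs, hs, ?_, ?_, ?_, ?_, ?_, ?_, ?_, Or.inl rfl, ?_, ?_⟩ <;> intro p hp <;> simp at hp

theorem Opn.label_ne (hc : PC c) {P : Finset (V × V)} {s e y : V} (h : Opn c v P s e)
    (hy : y ∉ vs P v e) {p : V × V} (hp : p ∈ P) : c p.1 p.2 ≠ c v y := by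
  obtain ⟨hyv, hye, hy1, hy2⟩ := not_mem_vs.1 hy
  obtain ⟨z, hz1, hz2, hz3, hz4⟩ := h.label p hp
  intro h1
  have h2 : z = y := hc.proper v z y hz3.symm hyv.symm (hz4.symm.trans h1)
  rcases hz1 with h3 | ⟨q, hq, h3⟩
  · exact hye (h2.symm.trans h3)
  · exact hy1 q hq (h3.trans h2)

theorem Opn.extend (hc : PC c) {P : Finset (V × V)} {s e y a : V} (h : Opn c v P s e)
    (hy : y ∉ vs P v e) (ha : a ∉ vs P v e) (hay : a ≠ y) (hcol : c e a = c v y) :
    Opn c v (insert (e, a) P) s y ∧ (insert (e, a) P).card = P.card + 1 := by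
  have hlab := fun {p : V × V} (hp : p ∈ P) => h.label_ne hc hy hp
  obtain ⟨hyv, hye, hy1, hy2⟩ := not_mem_vs.1 hy
  obtain ⟨hav, hae, ha1, ha2⟩ := not_mem_vs.1 ha
  have hnot : (e, a) ∉ P := fun h1 => h.e_fst _ h1 rfl
  refine ⟨⟨h.s_ne, hyv, ?_, ?_, ?_, ?_, ?_, ?_, ?_, ?_, ?_, ?_⟩, Finset.card_insert_of_notMem hnot⟩
  · intro p hp
    rcases Finset.mem_insert.1 hp with rfl | hp
    · exact h.e_ne
    · exact h.fst_ne p hp
  · intro p hp
    rcases Finset.mem_insert.1 hp with rfl | hp
    · exact hav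
    · exact h.snd_ne p hp
  · intro p hp q hq he
    rcases Finset.mem_insert.1 hp with rfl | hp
    · rcases Finset.mem_insert.1 hq with rfl | hq
      · rfl
      · exact absurd he.symm (h.e_fst q hq)
    · rcases Finset.mem_insert.1 hq with rfl | hq
      · exact absurd he (h.e_fst p hp)
      · exact h.fst_inj p hp q hq he
  · intro p hp q hq he
    rcases Finset.mem_insert.1 hp with rfl | hp
    · rcases Finset.mem_insert.1 hq with rfl | hq
      · rfl
      · exact absurd he.symm (ha2 q hq)
    · rcases Finset.mem_insert.1 hq with rfl | hq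
      · exact absurd he (ha2 p hp)
      · exact h.snd_inj p hp q hq he
  · intro p hp q hq he
    rcases Finset.mem_insert.1 hp with rfl | hp
    · rcases Finset.mem_insert.1 hq with rfl | hq
      · exact hae he.symm
      · exact h.e_snd q hq he.symm
    · rcases Finset.mem_insert.1 hq with rfl | hq
      · exact ha1 p hp he
      · exact h.disj p hp q hq he
  · intro p hp
    rcases Finset.mem_insert.1 hp with rfl | hp
    · exact hye.symm
    · exact hy1 p hp
  · intro p hp
    rcases Finset.mem_insert.1 hp with rfl | hp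
    · exact hay
    · exact hy2 p hp
  · right
    rcases h.s_mem with h1 | ⟨p, hp, h1⟩
    · exact ⟨(e, a), Finset.mem_insert_self _ _, h1.symm⟩
    · exact ⟨p, Finset.mem_insert_of_mem hp, h1⟩
  · intro p hp q hq he
    rcases Finset.mem_insert.1 hp with rfl | hp
    · rcases Finset.mem_insert.1 hq with rfl | hq
      · rfl
      · exact absurd (he.symm.trans hcol) (hlab hq)
    · rcases Finset.mem_insert.1 hq with rfl | hq
      · exact absurd (he.trans hcol) (hlab hp)
      · exact h.col_inj p hp q hq he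
  · intro p hp
    rcases Finset.mem_insert.1 hp with rfl | hp
    · refine ⟨y, Or.inl rfl, ?_, hyv, hcol⟩
      rcases h.s_mem with h1 | ⟨p, hp, h1⟩
      · rw [h1]; exact hye
      · rintro rfl
        exact hy1 p hp h1
    · obtain ⟨z, hz1, hz2, hz3, hz4⟩ := h.label p hp
      refine ⟨z, ?_, hz2, hz3, hz4⟩
      rcases hz1 with h3 | ⟨q, hq, h3⟩
      · exact Or.inr ⟨(e, a), Finset.mem_insert_self _ _, h3.symm⟩
      · exact Or.inr ⟨q, Finset.mem_insert_of_mem hq, h3⟩

/-- closing the last pair with the unused colour `c v s` -/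
theorem Opn.close (hc : PC c) {P : Finset (V × V)} {s e a : V} (h : Opn c v P s e)
    (ha : a ∉ vs P v e) (hcol : c e a = c v s) :
    Closed c v (insert (e, a) P) ∧ (insert (e, a) P).card = P.card + 1 := by
  obtain ⟨hav, hae, ha1, ha2⟩ := not_mem_vs.1 ha
  have hnot : (e, a) ∉ P := fun h1 => h.e_fst _ h1 rfl
  have hlab : ∀ p ∈ P, c p.1 p.2 ≠ c v s := by
    intro p hp h1
    obtain ⟨z, hz1, hz2, hz3, hz4⟩ := h.label p hp
    exact hz2 (hc.proper v z s hz3.symm h.s_ne.symm (hz4.symm.trans h1))
  refine ⟨⟨?_, ?_, ?_, ?_, ?_, ?_, ?_⟩, Finset.card_insert_of_notMem hnot⟩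
  · intro p hp
    rcases Finset.mem_insert.1 hp with rfl | hp
    · exact h.e_ne
    · exact h.fst_ne p hp
  · intro p hp
    rcases Finset.mem_insert.1 hp with rfl | hp
    · exact hav
    · exact h.snd_ne p hp
  · intro p hp q hq he
    rcases Finset.mem_insert.1 hp with rfl | hp
    · rcases Finset.mem_insert.1 hq with rfl | hq
      · rfl
      · exact absurd he.symm (h.e_fst q hq)
    · rcases Finset.mem_insert.1 hq with rfl | hq
      · exact absurd he (h.e_fst p hp)
      · exact h.fst_inj p hp q hq he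
  · intro p hp q hq he
    rcases Finset.mem_insert.1 hp with rfl | hp
    · rcases Finset.mem_insert.1 hq with rfl | hq
      · rfl
      · exact absurd he.symm (ha2 q hq)
    · rcases Finset.mem_insert.1 hq with rfl | hq
      · exact absurd he (ha2 p hp)
      · exact h.snd_inj p hp q hq he
  · intro p hp q hq he
    rcases Finset.mem_insert.1 hp with rfl | hp
    · rcases Finset.mem_insert.1 hq with rfl | hq
      · exact hae he.symm
      · exact h.e_snd q hq he.symm
    · rcases Finset.mem_insert.1 hq with rfl | hq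
      · exact ha1 p hp he
      · exact h.disj p hp q hq he
  · intro p hp q hq he
    rcases Finset.mem_insert.1 hp with rfl | hp
    · rcases Finset.mem_insert.1 hq with rfl | hq
      · rfl
      · exact absurd (he.symm.trans hcol) (hlab q hq)
    · rcases Finset.mem_insert.1 hq with rfl | hq
      · exact absurd (he.trans hcol) (hlab p hp)
      · exact h.col_inj p hp q hq he
  · intro p hp _
    rcases Finset.mem_insert.1 hp with rfl | hp
    · rcases h.s_mem with h1 | ⟨q, hq, h1⟩
      · exact ⟨(e, a), Finset.mem_insert_self _ _, by rw [hcol, h1]⟩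
      · exact ⟨q, Finset.mem_insert_of_mem hq, by rw [hcol, h1]⟩
    · obtain ⟨z, hz1, hz2, hz3, hz4⟩ := h.label p hp
      rcases hz1 with h3 | ⟨q, hq, h3⟩
      · exact ⟨(e, a), Finset.mem_insert_self _ _, by rw [hz4, h3]⟩
      · exact ⟨q, Finset.mem_insert_of_mem hq, by rw [hz4, h3]⟩

/-- labels `y` whose partner from `x` lies in `F` -/
noncomputable def Hit (c : V → V → K) (v x : V) (F : Finset V) : Finset V := by
  classical
  exact F.biUnion (fun a => univ.filter (fun y => y ≠ v ∧ c x a = c v y))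

theorem mem_Hit {x y : V} {F : Finset V} :
    y ∈ Hit c v x F ↔ ∃ a ∈ F, y ≠ v ∧ c x a = c v y := by
  classical
  simp [Hit]

theorem card_Hit (hc : PC c) (x : V) (F : Finset V) : (Hit c v x F).card ≤ F.card := by
  classical
  unfold Hit
  refine Finset.card_biUnion_le.trans ?_
  calc ∑ a ∈ F, (univ.filter (fun y => y ≠ v ∧ c x a = c v y)).card ≤ ∑ _a ∈ F, 1 := by
        refine Finset.sum_le_sum fun a _ => ?_
        rw [Finset.card_le_one]
        intro y hy z hz
        simp only [Finset.mem_filter, Finset.mem_univ, true_and] at hy hz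
        exact hc.proper v y z hy.1.symm hz.1.symm (hy.2.symm.trans hz.2)
    _ = F.card := by simp

/-- one step of the greedy choice -/
theorem step (hc : PC c) {x : V} (hx : x ≠ v) (F Z : Finset V) (hvF : v ∈ F) (hxF : x ∈ F)
    (hcard : 2 * F.card + (Miss c v x).card + Z.card < Fintype.card V) :
    ∃ y a, y ∉ F ∧ y ∉ Z ∧ a ∉ F ∧ a ≠ y ∧ c x a = c v y := by
  have h1 : (F ∪ Z ∪ Miss c v x ∪ Hit c v x F).card < Fintype.card V := by
    have h2 := Finset.card_union_le (F ∪ Z ∪ Miss c v x) (Hit c v x F)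
    have h3 := Finset.card_union_le (F ∪ Z) (Miss c v x)
    have h4 := Finset.card_union_le F Z
    have h5 := card_Hit (v := v) hc x F
    omega
  obtain ⟨y, hy⟩ : ∃ y, y ∉ F ∪ Z ∪ Miss c v x ∪ Hit c v x F := by
    by_contra h
    push Not at h
    have : F ∪ Z ∪ Miss c v x ∪ Hit c v x F = univ := Finset.eq_univ_of_forall h
    rw [this, Finset.card_univ] at h1
    exact lt_irrefl _ h1
  simp only [Finset.mem_union, not_or] at hy
  obtain ⟨⟨⟨hyF, hyZ⟩, hyM⟩, hyH⟩ := hy
  have hyv : y ≠ v := fun h => hyF (h ▸ hvF)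
  have hyx : y ≠ x := fun h => hyF (h ▸ hxF)
  have hold : Old c x (c v y) := by
    by_contra h
    exact hyM (mem_Miss.2 ⟨hyv, hyx, h⟩)
  obtain ⟨a, hax, hcol⟩ := hold
  refine ⟨y, a, hyF, hyZ, ?_, ?_, hcol⟩
  · intro ha
    exact hyH (mem_Hit.2 ⟨a, ha, hyv, hcol⟩)
  · rintro rfl
    have h2 : c a x = c a v := by rw [hc.symm a x, hcol, hc.symm]
    exact hx (hc.proper a x v hyx hyv h2)

/-- closed families made of new colours -/
theorem rich_case (hc : PC c) (k : ℕ) (B : Finset V) (hB : B.card = k)
    (hv : v ∉ B) (hrich : ∀ b ∈ B, 3 * k ≤ (New c v b).card) :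
    ∃ P : Finset (V × V), Closed c v P ∧ P.card = k := by
  classical
  have key : ∀ B' : Finset V, B' ⊆ B → ∃ P : Finset (V × V), P.card = B'.card ∧
      (∀ p ∈ P, p.1 ∈ B' ∧ p.2 ≠ v ∧ p.2 ∉ B ∧ ¬ Old c v (c p.1 p.2)) ∧
      (∀ p ∈ P, ∀ q ∈ P, p.1 = q.1 → p = q) ∧ (∀ p ∈ P, ∀ q ∈ P, p.2 = q.2 → p = q) ∧
      (∀ p ∈ P, ∀ q ∈ P, c p.1 p.2 = c q.1 q.2 → p = q) := by
    intro B'
    induction B' using Finset.induction_on with
    | empty =>
      intro _
      refine ⟨∅, by simp, ?_, ?_, ?_, ?_⟩ <;> intro p hp <;> simp at hp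
    | insert b B' hb ih =>
      intro hsub
      obtain ⟨P, h1, h2, h3, h4, h5⟩ := ih (fun x hx => hsub (Finset.mem_insert_of_mem hx))
      have hbB : b ∈ B := hsub (Finset.mem_insert_self _ _)
      have hlt : P.card < k := by
        rw [h1, ← hB]
        refine Finset.card_lt_card ?_
        refine ⟨fun x hx => hsub (Finset.mem_insert_of_mem hx), fun h => hb (h hbB)⟩
      -- neighbours of `b` along used colours
      set U : Finset V := P.biUnion (fun p => univ.filter (fun a => a ≠ b ∧ c b a = c p.1 p.2)) with hU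
      have hUc : U.card ≤ P.card := by
        rw [hU]
        refine Finset.card_biUnion_le.trans ?_
        calc ∑ p ∈ P, (univ.filter (fun a => a ≠ b ∧ c b a = c p.1 p.2)).card ≤ ∑ _p ∈ P, 1 := by
              refine Finset.sum_le_sum fun p _ => ?_
              rw [Finset.card_le_one]
              intro y hy z hz
              simp only [Finset.mem_filter, Finset.mem_univ, true_and] at hy hz
              exact hc.proper b y z hy.1.symm hz.1.symm (hy.2.trans hz.2.symm)
          _ = P.card := by simp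
      have hex : ∃ a ∈ New c v b, a ∉ B ∪ P.image Prod.snd ∪ U := by
        by_contra h
        push Not at h
        have h6 : (New c v b).card ≤ (B ∪ P.image Prod.snd ∪ U).card := Finset.card_le_card h
        have h7 := Finset.card_union_le (B ∪ P.image Prod.snd) U
        have h8 := Finset.card_union_le B (P.image Prod.snd)
        have h9 : (P.image Prod.snd).card ≤ P.card := Finset.card_image_le
        have h10 := hrich b hbB
        omega
      obtain ⟨a, haN, ha⟩ := hex
      simp only [Finset.mem_union, not_or] at ha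
      obtain ⟨⟨haB, haP⟩, haU⟩ := ha
      obtain ⟨hav, hab, hanew⟩ := mem_New.1 haN
      have haP' : ∀ p ∈ P, p.2 ≠ a := fun p hp h => haP (h ▸ Finset.mem_image_of_mem _ hp)
      have haU' : ∀ p ∈ P, c b a ≠ c p.1 p.2 := by
        intro p hp h
        apply haU
        rw [hU]
        exact Finset.mem_biUnion.2 ⟨p, hp, by simp [hab, h]⟩
      have hbP : ∀ p ∈ P, p.1 ≠ b := fun p hp h => hb (h ▸ (h2 p hp).1)
      have hnot : (b, a) ∉ P := fun h => hbP _ h rfl
      refine ⟨insert (b, a) P, ?_, ?_, ?_, ?_, ?_⟩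
      · rw [Finset.card_insert_of_notMem hnot, Finset.card_insert_of_notMem hb, h1]
      · intro p hp
        rcases Finset.mem_insert.1 hp with rfl | hp
        · exact ⟨Finset.mem_insert_self _ _, hav, haB, hanew⟩
        · obtain ⟨h6, h7⟩ := h2 p hp
          exact ⟨Finset.mem_insert_of_mem h6, h7⟩
      · intro p hp q hq he
        rcases Finset.mem_insert.1 hp with rfl | hp
        · rcases Finset.mem_insert.1 hq with rfl | hq
          · rfl
          · exact absurd he.symm (hbP q hq)
        · rcases Finset.mem_insert.1 hq with rfl | hq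
          · exact absurd he (hbP p hp)
          · exact h3 p hp q hq he
      · intro p hp q hq he
        rcases Finset.mem_insert.1 hp with rfl | hp
        · rcases Finset.mem_insert.1 hq with rfl | hq
          · rfl
          · exact absurd he.symm (haP' q hq)
        · rcases Finset.mem_insert.1 hq with rfl | hq
          · exact absurd he (haP' p hp)
          · exact h4 p hp q hq he
      · intro p hp q hq he
        rcases Finset.mem_insert.1 hp with rfl | hp
        · rcases Finset.mem_insert.1 hq with rfl | hq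
          · rfl
          · exact absurd he (haU' q hq)
        · rcases Finset.mem_insert.1 hq with rfl | hq
          · exact absurd he.symm (haU' p hp)
          · exact h5 p hp q hq he
  obtain ⟨P, h1, h2, h3, h4, h5⟩ := key B (Finset.Subset.refl _)
  refine ⟨P, ⟨?_, ?_, h3, h4, ?_, h5, ?_⟩, h1.trans hB⟩
  · intro p hp h
    exact hv (h ▸ (h2 p hp).1)
  · intro p hp
    exact (h2 p hp).2.1
  · intro p hp q hq h
    exact (h2 q hq).2.2.1 (h ▸ (h2 p hp).1)
  · intro p hp h
    exact absurd h (h2 p hp).2.2.2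

/-- labels which would give a coincidence in the last step -/
noncomputable def CO (c : V → V → K) (v s x : V) : Finset V := by
  classical
  exact univ.filter (fun y => ∃ a, a ≠ x ∧ a ≠ y ∧ c x a = c v y ∧ c y a = c v s)

theorem mem_CO {s x y : V} :
    y ∈ CO c v s x ↔ ∃ a, a ≠ x ∧ a ≠ y ∧ c x a = c v y ∧ c y a = c v s := by
  classical
  simp [CO]

theorem sum_CO (hc : PC c) (s : V) : ∑ x, (CO c v s x).card ≤ Fintype.card V := by
  classical
  have h1 : ∑ x, (CO c v s x).card = ∑ y, (univ.filter (fun x => y ∈ CO c v s x)).card := by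
    simp_rw [Finset.card_eq_sum_ones, Finset.sum_filter]
    rw [Finset.sum_comm]
    refine Finset.sum_congr rfl fun x _ => ?_
    rw [← Finset.sum_filter]
    congr 1
    ext y
    simp
  rw [h1]
  calc ∑ y, (univ.filter (fun x => y ∈ CO c v s x)).card ≤ ∑ _y : V, 1 := by
        refine Finset.sum_le_sum fun y _ => ?_
        rw [Finset.card_le_one]
        intro x hx x' hx'
        simp only [Finset.mem_filter, Finset.mem_univ, true_and, mem_CO] at hx hx'
        obtain ⟨a, h1, h2, h3, h4⟩ := hx
        obtain ⟨a', h1', h2', h3', h4'⟩ := hx'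
        have h5 : a = a' := hc.proper y a a' h2.symm h2'.symm (h4.trans h4'.symm)
        subst h5
        refine hc.proper a x x' h1 h1' ?_
        rw [hc.symm a x, hc.symm a x', h3, h3']
    _ = Fintype.card V := by simp

end

end Pool.Agent.TH437.SP
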