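import Pool.Agent.TH437.SP.Frac

/-!
# Sums over triangles of steps
-/

set_option autoImplicit false
set_option linter.unusedSectionVars false

namespace Pool.Agent.TH437.SP

open Finset

section
variable {V K : Type} [Fintype V] [DecidableEq V] {c : V → V → K} {v : V} {κ : ℝ}

/-- weighted sum over the six-tuples `(x, y, z, a, b, d)` -/
noncomputable def TS (c : V → V → K) (v : V) (κ : ℝ) (φ : V → V → V → V → V → V → ℝ) : ℝ :=
  ∑ x, ∑ y, ∑ z, ∑ a, ∑ b, ∑ d,
    S c v κ x y a * S c v κ y z b * S c v κ z x d * φ x y z a b d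

/-- step matrix with a test function -/
noncomputable def Mat (c : V → V → K) (v : V) (κ : ℝ) (f : V → V → ℝ) (x y : V) : ℝ :=
  ∑ a, S c v κ x y a * f x a

theorem prod3 (A B D : V → ℝ) :
    (∑ a, A a) * (∑ b, B b) * (∑ d, D d) = ∑ a, ∑ b, ∑ d, A a * B b * D d := by
  rw [Finset.sum_mul_sum, Finset.sum_mul]
  refine Finset.sum_congr rfl fun a _ => ?_
  rw [Finset.sum_mul]
  refine Finset.sum_congr rfl fun b _ => ?_
  rw [Finset.mul_sum]

theorem TS_prod (α : V → V → V → ℝ) (f g h : V → V → ℝ) :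
    TS c v κ (fun x y z a b d => α x y z * (f x a * g y b * h z d)) =
      ∑ x, ∑ y, ∑ z, α x y z * (Mat c v κ f x y * Mat c v κ g y z * Mat c v κ h z x) := by
  unfold TS
  refine Finset.sum_congr rfl fun x _ => ?_
  refine Finset.sum_congr rfl fun y _ => ?_
  refine Finset.sum_congr rfl fun z _ => ?_
  unfold Mat
  rw [prod3, Finset.mul_sum]
  refine Finset.sum_congr rfl fun a _ => ?_
  rw [Finset.mul_sum]
  refine Finset.sum_congr rfl fun b _ => ?_
  rw [Finset.mul_sum]
  refine Finset.sum_congr rfl fun d _ => ?_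
  ring

theorem rot3 (F : V → V → V → ℝ) :
    ∑ y, ∑ z, ∑ x, F y z x = ∑ x, ∑ y, ∑ z, F y z x := by
  calc ∑ y, ∑ z, ∑ x, F y z x = ∑ y, ∑ x, ∑ z, F y z x :=
        Finset.sum_congr rfl fun y _ => Finset.sum_comm
    _ = _ := Finset.sum_comm

theorem TS_rot (φ : V → V → V → V → V → V → ℝ) :
    TS c v κ (fun x y z a b d => φ y z x b d a) = TS c v κ φ := by
  unfold TS
  have h1 : ∀ F : V → V → V → V → V → V → ℝ,
      ∑ y, ∑ z, ∑ x, ∑ b, ∑ d, ∑ a, F y z x b d a = ∑ x, ∑ y, ∑ z, ∑ a, ∑ b, ∑ d, F y z x b d a := by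
    intro F
    rw [rot3 (fun y z x => ∑ b, ∑ d, ∑ a, F y z x b d a)]
    refine Finset.sum_congr rfl fun x _ => ?_
    refine Finset.sum_congr rfl fun y _ => ?_
    refine Finset.sum_congr rfl fun z _ => ?_
    exact rot3 (fun b d a => F y z x b d a)
  rw [h1 (fun x y z a b d => S c v κ x y a * S c v κ y z b * S c v κ z x d * φ x y z a b d)]
  refine Finset.sum_congr rfl fun x _ => ?_
  refine Finset.sum_congr rfl fun y _ => ?_
  refine Finset.sum_congr rfl fun z _ => ?_
  refine Finset.sum_congr rfl fun a _ => ?_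
  refine Finset.sum_congr rfl fun b _ => ?_
  refine Finset.sum_congr rfl fun d _ => ?_
  ring

theorem TS_mono {φ ψ : V → V → V → V → V → V → ℝ}
    (h : ∀ x y z a b d, φ x y z a b d ≤ ψ x y z a b d) : TS c v κ φ ≤ TS c v κ ψ := by
  unfold TS
  refine Finset.sum_le_sum fun x _ => ?_
  refine Finset.sum_le_sum fun y _ => ?_
  refine Finset.sum_le_sum fun z _ => ?_
  refine Finset.sum_le_sum fun a _ => ?_
  refine Finset.sum_le_sum fun b _ => ?_
  refine Finset.sum_le_sum fun d _ => ?_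
  exact mul_le_mul_of_nonneg_left (h x y z a b d)
    (mul_nonneg (mul_nonneg (S_nonneg _ _ _) (S_nonneg _ _ _)) (S_nonneg _ _ _))

theorem TS_add (φ ψ : V → V → V → V → V → V → ℝ) :
    TS c v κ (fun x y z a b d => φ x y z a b d + ψ x y z a b d) = TS c v κ φ + TS c v κ ψ := by
  unfold TS
  simp only [mul_add, Finset.sum_add_distrib]

/-- test functions -/
noncomputable def one2 : V → V → ℝ := fun _ _ => 1

open Classical in
/-- corner indicator -/
noncomputable def co (τ : V ⊕ K) (x : V) : ℝ := if τ = Sum.inl x then 1 else 0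

open Classical in
/-- edge indicator -/
noncomputable def ed (c : V → V → K) (v : V) (τ : V ⊕ K) (x a : V) : ℝ :=
  if τ = Sum.inl a ∨ (τ = Sum.inr (c x a) ∧ ¬ Old c v (c x a)) then 1 else 0

theorem co_nonneg (τ : V ⊕ K) (x : V) : 0 ≤ co τ x := by unfold co; split_ifs <;> norm_num
theorem co_le (τ : V ⊕ K) (x : V) : co τ x ≤ 1 := by unfold co; split_ifs <;> norm_num
theorem ed_nonneg (τ : V ⊕ K) (x a : V) : 0 ≤ ed c v τ x a := by unfold ed; split_ifs <;> norm_num
theorem ed_le (τ : V ⊕ K) (x a : V) : ed c v τ x a ≤ 1 := by unfold ed; split_ifs <;> norm_num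

theorem sum_co_le (τ : V ⊕ K) : ∑ x, co τ x ≤ 1 := by
  refine sum_le_one_of _ (co_le τ) (co_nonneg τ) ?_
  intro x y hx hy
  unfold co at hx hy
  have h1 : τ = Sum.inl x := by by_contra h; simp [h] at hx
  have h2 : τ = Sum.inl y := by by_contra h; simp [h] at hy
  rw [h1] at h2
  exact Sum.inl_injective h2

theorem Mat_nonneg {f : V → V → ℝ} (hf : ∀ x a, 0 ≤ f x a) (x y : V) : 0 ≤ Mat c v κ f x y :=
  Finset.sum_nonneg fun a _ => mul_nonneg (S_nonneg _ _ _) (hf _ _)

theorem Mat_le_one (hc : PC c) {f : V → V → ℝ} (hf : ∀ x a, f x a ≤ 1) (x y : V) :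
    Mat c v κ f x y ≤ 1 := by
  refine (Finset.sum_le_sum fun a _ => ?_).trans (sum_a_le (v := v) (κ := κ) hc x y)
  exact mul_le_of_le_one_right (S_nonneg _ _ _) (hf _ _)

theorem ed_ne {τ : V ⊕ K} {x a : V} (h : ed c v τ x a ≠ 0) :
    τ = Sum.inl a ∨ (τ = Sum.inr (c x a) ∧ ¬ Old c v (c x a)) := by
  unfold ed at h
  by_contra h1
  rw [if_neg h1] at h
  exact h rfl

/-- row sums -/
theorem H_row (hc : PC c) (τ : V ⊕ K) (x : V) : ∑ y, Mat c v κ (ed c v τ) x y ≤ 1 := by
  unfold Mat
  rw [Finset.sum_comm]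
  have h1 : ∀ a, ∑ y, S c v κ x y a * ed c v τ x a = (∑ y, S c v κ x y a) * ed c v τ x a := by
    intro a; rw [Finset.sum_mul]
  simp_rw [h1]
  have hs : ∀ a, 0 ≤ ∑ y, S c v κ x y a := fun a => Finset.sum_nonneg fun y _ => S_nonneg _ _ _
  refine sum_le_one_of _ ?_ ?_ ?_
  · intro a
    exact (mul_le_mul (sum_y_le hc x a) (ed_le τ x a) (ed_nonneg _ _ _) zero_le_one).trans
      (by norm_num)
  · intro a
    exact mul_nonneg (hs a) (ed_nonneg _ _ _)
  · intro a b ha hb
    have ha1 := left_ne_zero_of_mul ha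
    have hb1 := left_ne_zero_of_mul hb
    have hax : a ≠ x := by
      rintro rfl
      apply ha1
      refine Finset.sum_eq_zero fun y _ => ?_
      by_contra h
      exact (S_pos hc h).2.2.2.1 rfl
    have hbx : b ≠ x := by
      rintro rfl
      apply hb1
      refine Finset.sum_eq_zero fun y _ => ?_
      by_contra h
      exact (S_pos hc h).2.2.2.1 rfl
    have ha2 := ed_ne (right_ne_zero_of_mul ha)
    have hb2 := ed_ne (right_ne_zero_of_mul hb)
    rcases ha2 with h | ⟨h, _⟩
    · rcases hb2 with h' | ⟨h', _⟩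
      · rw [h] at h'; exact Sum.inl_injective h'
      · rw [h] at h'; exact absurd h' (by simp)
    · rcases hb2 with h' | ⟨h', _⟩
      · rw [h] at h'; exact absurd h' (by simp)
      · rw [h] at h'
        exact hc.proper x a b hax.symm hbx.symm (Sum.inr_injective h')

/-- column sums -/
theorem H_col (hc : PC c) (hκ : 0 < κ) (τ : V ⊕ K) (y : V) :
    ∑ x, Mat c v κ (ed c v τ) x y ≤ 1 + 1 / κ := by
  have hn : 0 < Fintype.card V := Fintype.card_pos_iff.2 ⟨v⟩
  have hnr : (Fintype.card V : ℝ) ≠ 0 := by positivity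
  rcases τ with u | γ
  · have h1 : ∀ x, Mat c v κ (ed c v (Sum.inl u)) x y = S c v κ x y u := by
      intro x
      unfold Mat
      rw [Finset.sum_eq_single u]
      · simp [ed]
      · intro b _ hb
        have : ed c v (Sum.inl u) x b = 0 := by
          unfold ed
          rw [if_neg]
          rintro (h | ⟨h, _⟩)
          · exact hb (Sum.inl_injective h).symm
          · exact absurd h (by simp)
        rw [this, mul_zero]
      · intro h; exact absurd (mem_univ u) h
    simp_rw [h1]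
    exact sum_x_le hc hκ y u
  · have h2 : ∀ x, Mat c v κ (ed c v (Sum.inr γ)) x y ≤ 1 / (κ * (Fintype.card V : ℝ)) := by
      intro x
      unfold Mat
      refine sum_le_of _ (by positivity) ?_ ?_
      · intro a
        by_cases h3 : ed c v (Sum.inr γ) x a = 0
        · rw [h3, mul_zero]; positivity
        · rcases ed_ne h3 with h | ⟨h, h4⟩
          · exact absurd h (by simp)
          · have h5 : Sr c v x y a = 0 := by
              by_contra h6
              obtain ⟨_, h7, _, _, h8⟩ := Sr_pos h6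
              exact h4 ⟨y, h7, h8.symm⟩
            rw [S, h5, zero_add]
            calc Sv c v κ x y a * ed c v (Sum.inr γ) x a ≤ Sv c v κ x y a :=
                  mul_le_of_le_one_right (Sv_nonneg _ _ _) (ed_le _ _ _)
              _ ≤ _ := Sv_le' hκ x y a hn
      · intro a b ha hb
        have hax : a ≠ x := (S_pos hc (left_ne_zero_of_mul ha)).2.2.2.1
        have hbx : b ≠ x := (S_pos hc (left_ne_zero_of_mul hb)).2.2.2.1
        have ha2 := ed_ne (right_ne_zero_of_mul ha)
        have hb2 := ed_ne (right_ne_zero_of_mul hb)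
        rcases ha2 with h | ⟨h, _⟩
        · exact absurd h (by simp)
        · rcases hb2 with h' | ⟨h', _⟩
          · exact absurd h' (by simp)
          · rw [h] at h'
            exact hc.proper x a b hax.symm hbx.symm (Sum.inr_injective h')
    calc ∑ x, Mat c v κ (ed c v (Sum.inr γ)) x y
        ≤ ∑ _x : V, 1 / (κ * (Fintype.card V : ℝ)) := Finset.sum_le_sum fun x _ => h2 x
      _ = 1 / κ := by
          rw [Finset.sum_const, nsmul_eq_mul, Finset.card_univ]
          field_simp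
      _ ≤ 1 + 1 / κ := by linarith

/-- two constraints on the same edge -/
theorem HH_le (hc : PC c) {τ τ' : V ⊕ K} (hτ : τ ≠ τ') :
    ∑ x, ∑ y, Mat c v κ (fun x a => ed c v τ x a * ed c v τ' x a) x y ≤ 1 := by
  unfold Mat
  have h1 : ∀ x, ∑ y, ∑ a, S c v κ x y a * (ed c v τ x a * ed c v τ' x a) =
      ∑ a, (∑ y, S c v κ x y a) * (ed c v τ x a * ed c v τ' x a) := by
    intro x
    rw [Finset.sum_comm]
    refine Finset.sum_congr rfl fun a _ => ?_
    rw [Finset.sum_mul]
  simp_rw [h1]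
  rw [← Fintype.sum_prod_type' (f := fun x a => (∑ y, S c v κ x y a) *
    (ed c v τ x a * ed c v τ' x a))]
  have hs : ∀ x a, 0 ≤ ∑ y, S c v κ x y a := fun x a => Finset.sum_nonneg fun y _ => S_nonneg _ _ _
  refine sum_le_one_of _ ?_ ?_ ?_
  · rintro ⟨x, a⟩
    exact (mul_le_mul (sum_y_le hc x a)
      (mul_le_one₀ (ed_le τ x a) (ed_nonneg _ _ _) (ed_le τ' x a))
      (mul_nonneg (ed_nonneg _ _ _) (ed_nonneg _ _ _)) zero_le_one).trans (by norm_num)
  · rintro ⟨x, a⟩
    exact mul_nonneg (hs x a) (mul_nonneg (ed_nonneg _ _ _) (ed_nonneg _ _ _))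
  · rintro ⟨x, a⟩ ⟨x', a'⟩ ha hb
    have hne : ∀ x a, (∑ y, S c v κ x y a) ≠ 0 → a ≠ x := by
      intro x a h h1
      apply h
      refine Finset.sum_eq_zero fun y _ => ?_
      by_contra h
      exact (S_pos hc h).2.2.2.1 h1
    have hax : a ≠ x := hne x a (left_ne_zero_of_mul ha)
    have hax' : a' ≠ x' := hne x' a' (left_ne_zero_of_mul hb)
    have ha2 := right_ne_zero_of_mul ha
    have hb2 := right_ne_zero_of_mul hb
    have key : ∀ {τ τ' : V ⊕ K} {x a : V}, τ ≠ τ' → ed c v τ x a * ed c v τ' x a ≠ 0 →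
        (τ = Sum.inl a ∧ τ' = Sum.inr (c x a)) ∨ (τ' = Sum.inl a ∧ τ = Sum.inr (c x a)) := by
      intro τ τ' x a h h2
      rcases ed_ne (left_ne_zero_of_mul h2) with h3 | ⟨h3, _⟩
      · rcases ed_ne (right_ne_zero_of_mul h2) with h4 | ⟨h4, _⟩
        · exact absurd (h3.trans h4.symm) h
        · exact Or.inl ⟨h3, h4⟩
      · rcases ed_ne (right_ne_zero_of_mul h2) with h4 | ⟨h4, _⟩
        · exact Or.inr ⟨h4, h3⟩
        · exact absurd (h3.trans h4.symm) h
    have fin : ∀ {a a' x x' : V}, a ≠ x → a' ≠ x' → (Sum.inl a : V ⊕ K) = Sum.inl a' →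
        (Sum.inr (c x a) : V ⊕ K) = Sum.inr (c x' a') → (x, a) = (x', a') := by
      intro a a' x x' h1 h2 h3 h4
      have h5 := Sum.inl_injective h3
      subst h5
      have h6 := Sum.inr_injective h4
      have h7 : x = x' := hc.proper a x x' h1 h2 (by rw [hc.symm a x, hc.symm a x', h6])
      rw [h7]
    rcases key hτ ha2 with ⟨h3, h4⟩ | ⟨h3, h4⟩
    · rcases key hτ hb2 with ⟨h5, h6⟩ | ⟨h5, h6⟩
      · exact fin hax hax' (h3.symm.trans h5) (h4.symm.trans h6)
      · exact absurd (h3.symm.trans h6) (by simp)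
    · rcases key hτ hb2 with ⟨h5, h6⟩ | ⟨h5, h6⟩
      · exact absurd (h3.symm.trans h6) (by simp)
      · exact fin hax hax' (h3.symm.trans h5) (h4.symm.trans h6)

end

end Pool.Agent.TH437.SP
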