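import Pool.Agent.TH437.SP.Tri

/-!
# Loads, codegrees and the total weight
-/

set_option autoImplicit false
set_option linter.unusedSectionVars false

namespace Pool.Agent.TH437.SP

open Finset

section
variable {V K : Type} [Fintype V] [DecidableEq V] {c : V → V → K} {v : V} {κ : ℝ}

theorem one2_nonneg (x a : V) : (0:ℝ) ≤ one2 x a := zero_le_one
theorem one2_le (x a : V) : (one2 x a : ℝ) ≤ 1 := le_rfl

/-- bounding a triple sum after dropping matrices -/
theorem TS_le (α : V → V → V → ℝ) (hα : ∀ x y z, 0 ≤ α x y z) (f g h : V → V → ℝ)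
    (m : V → V → V → ℝ)
    (hm : ∀ x y z, Mat c v κ f x y * Mat c v κ g y z * Mat c v κ h z x ≤ m x y z) :
    TS c v κ (fun x y z a b d => α x y z * (f x a * g y b * h z d)) ≤
      ∑ x, ∑ y, ∑ z, α x y z * m x y z := by
  rw [TS_prod]
  refine Finset.sum_le_sum fun x _ => ?_
  refine Finset.sum_le_sum fun y _ => ?_
  refine Finset.sum_le_sum fun z _ => ?_
  exact mul_le_mul_of_nonneg_left (hm x y z) (hα x y z)

theorem mul3_le {p q r : ℝ} (hp0 : 0 ≤ p) (hq0 : 0 ≤ q) (hq : q ≤ 1) (hr0 : 0 ≤ r)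
    (hr : r ≤ 1) : p * q * r ≤ p := by
  have h1 : p * q ≤ p := mul_le_of_le_one_right hp0 hq
  exact (mul_le_of_le_one_right (mul_nonneg hp0 hq0) hr).trans h1

theorem N_nonneg : (0:ℝ) ≤ (Fintype.card V : ℝ) := by positivity

theorem M1n (x y : V) : 0 ≤ Mat c v κ one2 x y := Mat_nonneg (fun _ _ => one2_nonneg _ _) x y
theorem M1l (hc : PC c) (x y : V) : Mat c v κ one2 x y ≤ 1 :=
  Mat_le_one hc (fun _ _ => one2_le _ _) x y
theorem Men (τ : V ⊕ K) (x y : V) : 0 ≤ Mat c v κ (ed c v τ) x y :=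
  Mat_nonneg (fun _ _ => ed_nonneg _ _ _) x y
theorem Mel (hc : PC c) (τ : V ⊕ K) (x y : V) : Mat c v κ (ed c v τ) x y ≤ 1 :=
  Mat_le_one hc (fun _ _ => ed_le _ _ _) x y

theorem b_c (hc : PC c) (τ : V ⊕ K) :
    TS c v κ (fun x _ _ _ _ _ => co τ x) ≤ (Fintype.card V : ℝ) ^ 2 := by
  have h := TS_le (c := c) (v := v) (κ := κ) (fun x _ _ => co τ x) (fun x _ _ => co_nonneg τ x)
    one2 one2 one2 (fun _ _ _ => 1) (fun x y z =>
      (mul3_le (M1n x y) (M1n y z) (M1l hc y z) (M1n z x) (M1l hc z x)).trans (M1l hc x y))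
  simp only [one2, mul_one] at h
  refine h.trans ?_
  simp only [Finset.sum_const, Finset.card_univ, nsmul_eq_mul, ← Finset.mul_sum]
  have h1 := sum_co_le τ
  nlinarith [mul_nonneg (N_nonneg (V := V)) (N_nonneg (V := V))]

theorem b_e (hc : PC c) (τ : V ⊕ K) :
    TS c v κ (fun x _ _ a _ _ => ed c v τ x a) ≤ (Fintype.card V : ℝ) ^ 2 := by
  have h := TS_le (c := c) (v := v) (κ := κ) (fun _ _ _ => 1) (fun _ _ _ => zero_le_one)
    (ed c v τ) one2 one2 (fun x y _ => Mat c v κ (ed c v τ) x y) (fun x y z =>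
      (mul3_le (Men τ x y) (M1n y z) (M1l hc y z) (M1n z x) (M1l hc z x)))
  simp only [one2, mul_one, one_mul] at h
  refine h.trans ?_
  simp only [Finset.sum_const, Finset.card_univ, nsmul_eq_mul, ← Finset.mul_sum]
  have h1 : ∑ x, ∑ y, Mat c v κ (ed c v τ) x y ≤ (Fintype.card V : ℝ) := by
    calc _ ≤ ∑ _x : V, (1:ℝ) := Finset.sum_le_sum fun x _ => H_row hc τ x
      _ = (Fintype.card V : ℝ) := by simp
  nlinarith [N_nonneg (V := V)]

theorem b_cc1 (hc : PC c) (τ τ' : V ⊕ K) :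
    TS c v κ (fun x y _ _ _ _ => co τ x * co τ' y) ≤ (Fintype.card V : ℝ) := by
  have h := TS_le (c := c) (v := v) (κ := κ) (fun x y _ => co τ x * co τ' y)
    (fun x y _ => mul_nonneg (co_nonneg τ x) (co_nonneg τ' y))
    one2 one2 one2 (fun _ _ _ => 1) (fun x y z =>
      (mul3_le (M1n x y) (M1n y z) (M1l hc y z) (M1n z x) (M1l hc z x)).trans (M1l hc x y))
  simp only [one2, mul_one] at h
  refine h.trans ?_
  simp only [Finset.sum_const, Finset.card_univ, nsmul_eq_mul, ← Finset.mul_sum]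
  rw [← Finset.sum_mul]
  have h1 := sum_co_le τ
  have h2 := sum_co_le τ'
  have h3 : 0 ≤ ∑ x, co τ x := Finset.sum_nonneg fun x _ => co_nonneg τ x
  have h4 : 0 ≤ ∑ x, co τ' x := Finset.sum_nonneg fun x _ => co_nonneg τ' x
  have h5 := mul_le_one₀ h1 h4 h2
  nlinarith [N_nonneg (V := V)]

theorem b_ce1 (hc : PC c) (τ τ' : V ⊕ K) :
    TS c v κ (fun x y _ _ b _ => co τ x * ed c v τ' y b) ≤ (Fintype.card V : ℝ) := by
  have h := TS_le (c := c) (v := v) (κ := κ) (fun x _ _ => co τ x)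
    (fun x _ _ => co_nonneg τ x)
    one2 (ed c v τ') one2 (fun _ y z => Mat c v κ (ed c v τ') y z) (fun x y z => by
      have h1 := mul3_le (Men (c := c) (v := v) (κ := κ) τ' y z) (M1n (c := c) (v := v) (κ := κ) x y)
        (M1l hc x y) (M1n (c := c) (v := v) (κ := κ) z x) (M1l hc z x)
      rwa [mul_comm (Mat c v κ (ed c v τ') y z)] at h1)
  simp only [one2, mul_one, one_mul] at h
  refine h.trans ?_
  simp only [← Finset.mul_sum]
  rw [← Finset.sum_mul]
  have h1 : ∑ x, ∑ y, Mat c v κ (ed c v τ') x y ≤ (Fintype.card V : ℝ) := by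
    calc _ ≤ ∑ _x : V, (1:ℝ) := Finset.sum_le_sum fun x _ => H_row hc τ' x
      _ = (Fintype.card V : ℝ) := by simp
  have h2 := sum_co_le τ
  have h3 : 0 ≤ ∑ x, co τ x := Finset.sum_nonneg fun x _ => co_nonneg τ x
  nlinarith [N_nonneg (V := V)]

theorem b_ec1 (hc : PC c) (hκ : 0 < κ) (τ τ' : V ⊕ K) :
    TS c v κ (fun x y _ a _ _ => ed c v τ x a * co τ' y) ≤ (1 + 1 / κ) * (Fintype.card V : ℝ) := by
  have h := TS_le (c := c) (v := v) (κ := κ) (fun _ y _ => co τ' y)
    (fun _ y _ => co_nonneg τ' y)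
    (ed c v τ) one2 one2 (fun x y _ => Mat c v κ (ed c v τ) x y) (fun x y z =>
      (mul3_le (Men τ x y) (M1n y z) (M1l hc y z) (M1n z x) (M1l hc z x)))
  have h0 : TS c v κ (fun x y _ a _ _ => ed c v τ x a * co τ' y) =
      TS c v κ (fun x y z a b d => co τ' y * (ed c v τ x a * one2 y b * one2 z d)) := by
    congr 1; funext x y z a b d; simp [one2, mul_comm]
  rw [h0]
  refine h.trans ?_
  simp only [Finset.sum_const, Finset.card_univ, nsmul_eq_mul]
  rw [Finset.sum_comm]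
  have h1 : ∀ y, ∑ x, (Fintype.card V : ℝ) * (co τ' y * Mat c v κ (ed c v τ) x y) ≤ co τ' y * ((1 + 1 / κ) * (Fintype.card V : ℝ)) := by
    intro y
    rw [← Finset.mul_sum, ← Finset.mul_sum]
    have h2 := H_col (v := v) hc hκ τ y
    have h3 := mul_le_mul_of_nonneg_left h2 (mul_nonneg (N_nonneg (V := V)) (co_nonneg τ' y))
    linarith
  refine (Finset.sum_le_sum fun y _ => h1 y).trans ?_
  rw [← Finset.sum_mul]
  have h2 := sum_co_le τ'
  have h3 : 0 ≤ (1 + 1 / κ) * (Fintype.card V : ℝ) := by positivity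
  nlinarith

theorem b_ee1 (hc : PC c) (τ τ' : V ⊕ K) :
    TS c v κ (fun x y _ a b _ => ed c v τ x a * ed c v τ' y b) ≤ (Fintype.card V : ℝ) := by
  have h := TS_le (c := c) (v := v) (κ := κ) (fun _ _ _ => 1) (fun _ _ _ => zero_le_one)
    (ed c v τ) (ed c v τ') one2
    (fun x y z => Mat c v κ (ed c v τ) x y * Mat c v κ (ed c v τ') y z) (fun x y z =>
      mul_le_of_le_one_right (mul_nonneg (Men τ x y) (Men τ' y z)) (M1l hc z x))
  simp only [one2, mul_one, one_mul] at h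
  refine h.trans ?_
  calc ∑ x, ∑ y, ∑ z, Mat c v κ (ed c v τ) x y * Mat c v κ (ed c v τ') y z
      ≤ ∑ x, ∑ y, Mat c v κ (ed c v τ) x y := by
        refine Finset.sum_le_sum fun x _ => Finset.sum_le_sum fun y _ => ?_
        rw [← Finset.mul_sum]
        exact mul_le_of_le_one_right (Men τ x y) (H_row hc τ' y)
    _ ≤ ∑ _x : V, (1:ℝ) := Finset.sum_le_sum fun x _ => H_row hc τ x
    _ = (Fintype.card V : ℝ) := by simp

theorem b_ce0 (hc : PC c) (τ τ' : V ⊕ K) :
    TS c v κ (fun x _ _ a _ _ => co τ x * ed c v τ' x a) ≤ (Fintype.card V : ℝ) := by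
  have h := TS_le (c := c) (v := v) (κ := κ) (fun x _ _ => co τ x)
    (fun x _ _ => co_nonneg τ x)
    (ed c v τ') one2 one2 (fun x y _ => Mat c v κ (ed c v τ') x y) (fun x y z =>
      (mul3_le (Men τ' x y) (M1n y z) (M1l hc y z) (M1n z x) (M1l hc z x)))
  simp only [one2, mul_one] at h
  refine h.trans ?_
  simp only [Finset.sum_const, Finset.card_univ, nsmul_eq_mul]
  have h1 : ∀ x, ∑ y, (Fintype.card V : ℝ) * (co τ x * Mat c v κ (ed c v τ') x y) ≤ co τ x * (Fintype.card V : ℝ) := by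
    intro x
    rw [← Finset.mul_sum, ← Finset.mul_sum]
    have h2 := H_row (v := v) (κ := κ) hc τ' x
    have h3 := mul_le_mul_of_nonneg_left h2 (mul_nonneg (N_nonneg (V := V)) (co_nonneg τ x))
    linarith
  refine (Finset.sum_le_sum fun y _ => h1 y).trans ?_
  rw [← Finset.sum_mul]
  have h2 := sum_co_le τ
  nlinarith [N_nonneg (V := V)]

theorem b_ee0 (hc : PC c) {τ τ' : V ⊕ K} (hτ : τ ≠ τ') :
    TS c v κ (fun x _ _ a _ _ => ed c v τ x a * ed c v τ' x a) ≤ (Fintype.card V : ℝ) := by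
  have h := TS_le (c := c) (v := v) (κ := κ) (fun _ _ _ => 1) (fun _ _ _ => zero_le_one)
    (fun x a => ed c v τ x a * ed c v τ' x a) one2 one2
    (fun x y _ => Mat c v κ (fun x a => ed c v τ x a * ed c v τ' x a) x y) (fun x y z =>
      (mul3_le (Mat_nonneg (fun _ _ => mul_nonneg (ed_nonneg _ _ _) (ed_nonneg _ _ _)) x y)
        (M1n y z) (M1l hc y z) (M1n z x) (M1l hc z x)))
  simp only [one2, mul_one, one_mul] at h
  refine h.trans ?_
  simp only [Finset.sum_const, Finset.card_univ, nsmul_eq_mul, ← Finset.mul_sum]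
  exact mul_le_of_le_one_right N_nonneg (HH_le hc hτ)

/-- place indicator of the first third of a six-tuple -/
noncomputable def pp (c : V → V → K) (v : V) (τ : V ⊕ K) (x a : V) : ℝ := co τ x + ed c v τ x a

theorem pp_nonneg (τ : V ⊕ K) (x a : V) : 0 ≤ pp c v τ x a :=
  add_nonneg (co_nonneg _ _) (ed_nonneg _ _ _)

/-- the sum of the place indicators -/
noncomputable def pl (c : V → V → K) (v : V) (τ : V ⊕ K) (x y z a b d : V) : ℝ :=
  pp c v τ x a + pp c v τ y b + pp c v τ z d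

theorem TS_pp (hc : PC c) (τ : V ⊕ K) :
    TS c v κ (fun x _ _ a _ _ => pp c v τ x a) ≤ 2 * (Fintype.card V : ℝ) ^ 2 := by
  unfold pp
  rw [TS_add (fun x _ _ _ _ _ => co τ x) (fun x _ _ a _ _ => ed c v τ x a)]
  linarith [b_c (v := v) (κ := κ) hc τ, b_e (v := v) (κ := κ) hc τ]

/-- loads -/
theorem TS_pl (hc : PC c) (τ : V ⊕ K) :
    TS c v κ (pl c v τ) ≤ 6 * (Fintype.card V : ℝ) ^ 2 := by
  unfold pl
  rw [TS_add (fun x y _ a b _ => pp c v τ x a + pp c v τ y b) (fun _ _ z _ _ d => pp c v τ z d),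
    TS_add (fun x _ _ a _ _ => pp c v τ x a) (fun _ y _ _ b _ => pp c v τ y b)]
  have h1 : TS c v κ (fun _ y _ _ b _ => pp c v τ y b) =
      TS c v κ (fun x _ _ a _ _ => pp c v τ x a) :=
    TS_rot (fun x _ _ a _ _ => pp c v τ x a)
  have h2 : TS c v κ (fun _ _ z _ _ d => pp c v τ z d) =
      TS c v κ (fun _ y _ _ b _ => pp c v τ y b) :=
    TS_rot (fun _ y _ _ b _ => pp c v τ y b)
  rw [h2, h1]
  linarith [TS_pp (v := v) (κ := κ) hc τ]

theorem TS_00 (hc : PC c) {τ τ' : V ⊕ K} (hτ : τ ≠ τ') :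
    TS c v κ (fun x _ _ a _ _ => pp c v τ x a * pp c v τ' x a) ≤ 3 * (Fintype.card V : ℝ) := by
  have h0 : (fun (x _ _ a _ _ : V) => pp c v τ x a * pp c v τ' x a) =
      (fun x _ _ a _ _ => (co τ x * ed c v τ' x a + co τ' x * ed c v τ x a) +
        ed c v τ x a * ed c v τ' x a) := by
    funext x y z a b d
    have h1 : co τ x * co τ' x = 0 := by
      by_contra h
      have h2 := left_ne_zero_of_mul h
      have h3 := right_ne_zero_of_mul h
      unfold co at h2 h3
      have h4 : τ = Sum.inl x := by by_contra h; simp [h] at h2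
      have h5 : τ' = Sum.inl x := by by_contra h; simp [h] at h3
      exact hτ (h4.trans h5.symm)
    unfold pp
    linear_combination h1
  rw [h0, TS_add (fun x _ _ a _ _ => co τ x * ed c v τ' x a + co τ' x * ed c v τ x a)
    (fun x _ _ a _ _ => ed c v τ x a * ed c v τ' x a),
    TS_add (fun x _ _ a _ _ => co τ x * ed c v τ' x a) (fun x _ _ a _ _ => co τ' x * ed c v τ x a)]
  linarith [b_ce0 (v := v) (κ := κ) hc τ τ', b_ce0 (v := v) (κ := κ) hc τ' τ,
    b_ee0 (v := v) (κ := κ) hc hτ]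

theorem TS_01 (hc : PC c) (hκ : 0 < κ) (τ τ' : V ⊕ K) :
    TS c v κ (fun x y _ a b _ => pp c v τ x a * pp c v τ' y b) ≤ (4 + 1 / κ) * (Fintype.card V : ℝ) := by
  have h0 : (fun (x y _ a b _ : V) => pp c v τ x a * pp c v τ' y b) =
      (fun x y _ a b _ => (co τ x * co τ' y + co τ x * ed c v τ' y b) +
        (ed c v τ x a * co τ' y + ed c v τ x a * ed c v τ' y b)) := by
    funext x y z a b d
    unfold pp
    ring
  rw [h0, TS_add (fun x y _ a b _ => co τ x * co τ' y + co τ x * ed c v τ' y b)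
    (fun x y _ a b _ => ed c v τ x a * co τ' y + ed c v τ x a * ed c v τ' y b),
    TS_add (fun x y _ a b _ => co τ x * co τ' y) (fun x y _ a b _ => co τ x * ed c v τ' y b),
    TS_add (fun x y _ a b _ => ed c v τ x a * co τ' y)
      (fun x y _ a b _ => ed c v τ x a * ed c v τ' y b)]
  have h1 := b_cc1 (v := v) (κ := κ) hc τ τ'
  have h2 := b_ce1 (v := v) (κ := κ) hc τ τ'
  have h3 := b_ec1 (v := v) (κ := κ) hc hκ τ τ'
  have h4 := b_ee1 (v := v) (κ := κ) hc τ τ'
  linarith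

/-- codegrees -/
theorem TS_pl2 (hc : PC c) (hκ : 0 < κ) {τ τ' : V ⊕ K} (hτ : τ ≠ τ') :
    TS c v κ (fun x y z a b d => pl c v τ x y z a b d * pl c v τ' x y z a b d) ≤
      (33 + 6 / κ) * (Fintype.card V : ℝ) := by
  have h0 : (fun (x y z a b d : V) => pl c v τ x y z a b d * pl c v τ' x y z a b d) =
      (fun x y z a b d =>
        ((pp c v τ x a * pp c v τ' x a + pp c v τ y b * pp c v τ' y b) +
          pp c v τ z d * pp c v τ' z d) +
        (((pp c v τ x a * pp c v τ' y b + pp c v τ y b * pp c v τ' z d) +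
          pp c v τ z d * pp c v τ' x a) +
        ((pp c v τ' x a * pp c v τ y b + pp c v τ' y b * pp c v τ z d) +
          pp c v τ' z d * pp c v τ x a))) := by
    funext x y z a b d
    unfold pl
    ring
  rw [h0, TS_add (fun x y z a b d => (pp c v τ x a * pp c v τ' x a + pp c v τ y b * pp c v τ' y b) +
          pp c v τ z d * pp c v τ' z d) (fun x y z a b d =>
        (((pp c v τ x a * pp c v τ' y b + pp c v τ y b * pp c v τ' z d) +
          pp c v τ z d * pp c v τ' x a) +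
        ((pp c v τ' x a * pp c v τ y b + pp c v τ' y b * pp c v τ z d) +
          pp c v τ' z d * pp c v τ x a))),
    TS_add (fun x y z a b d => (pp c v τ x a * pp c v τ' y b + pp c v τ y b * pp c v τ' z d) +
          pp c v τ z d * pp c v τ' x a) (fun x y z a b d =>
          (pp c v τ' x a * pp c v τ y b + pp c v τ' y b * pp c v τ z d) +
          pp c v τ' z d * pp c v τ x a)]
  have key : ∀ F : V → V → V → V → ℝ, TS c v κ (fun x y z a b d =>
      (F x a y b + F y b z d) + F z d x a) = 3 * TS c v κ (fun x y _ a b _ => F x a y b) := by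
    intro F
    rw [TS_add (fun x y z a b d => F x a y b + F y b z d) (fun x y z a b d => F z d x a),
      TS_add (fun x y z a b d => F x a y b) (fun x y z a b d => F y b z d)]
    have h1 : TS c v κ (fun x y z a b d => F y b z d) = TS c v κ (fun x y z a b d => F x a y b) :=
      TS_rot (fun x y z a b d => F x a y b)
    have h2 : TS c v κ (fun x y z a b d => F z d x a) = TS c v κ (fun x y z a b d => F y b z d) :=
      TS_rot (fun x y z a b d => F y b z d)
    rw [h2, h1]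
    ring
  rw [key (fun x a _ _ => pp c v τ x a * pp c v τ' x a),
    key (fun x a y b => pp c v τ x a * pp c v τ' y b),
    key (fun x a y b => pp c v τ' x a * pp c v τ y b)]
  have h1 := TS_00 (v := v) (κ := κ) hc hτ
  have h2 := TS_01 (v := v) hc hκ τ τ'
  have h3 := TS_01 (v := v) hc hκ τ' τ
  have h4 : 6 / κ = 6 * (1 / κ) := by ring
  rw [h4]
  nlinarith

/-- the total weight -/
theorem TS_one (hc : PC c) (hκ : 0 ≤ κ) :
    (1 - 3 * κ) * (Fintype.card V : ℝ) ^ 3 - 12 * (Fintype.card V : ℝ) ^ 2 ≤ TS c v κ (fun _ _ _ _ _ _ => 1) := by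
  have h0 : TS c v κ (fun _ _ _ _ _ _ => 1) =
      ∑ x, ∑ y, ∑ z, (1:ℝ) * (Mat c v κ one2 x y * Mat c v κ one2 y z * Mat c v κ one2 z x) := by
    rw [← TS_prod (c := c) (v := v) (κ := κ) (fun _ _ _ => 1) one2 one2 one2]
    congr 1; funext x y z a b d; simp [one2]
  rw [h0]
  have h1 : ∀ p q r : ℝ, 0 ≤ p → p ≤ 1 → 0 ≤ q → q ≤ 1 → 0 ≤ r → r ≤ 1 →
      p + q + r - 2 ≤ 1 * (p * q * r) := by
    intro p q r hp0 hp1 hq0 hq1 hr0 hr1
    have h2 : 0 ≤ (1 - p) * (1 - q) := mul_nonneg (by linarith) (by linarith)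
    have h3 : 0 ≤ (1 - p * q) * (1 - r) :=
      mul_nonneg (by linarith [mul_le_one₀ hp1 hq0 hq1]) (by linarith)
    nlinarith
  have h2 : ∑ x, ∑ y, ∑ z, (Mat c v κ one2 x y + Mat c v κ one2 y z + Mat c v κ one2 z x - 2) ≤
      ∑ x, ∑ y, ∑ z, (1:ℝ) * (Mat c v κ one2 x y * Mat c v κ one2 y z * Mat c v κ one2 z x) := by
    refine Finset.sum_le_sum fun x _ => ?_
    refine Finset.sum_le_sum fun y _ => ?_
    refine Finset.sum_le_sum fun z _ => ?_
    exact h1 _ _ _ (M1n x y) (M1l hc x y) (M1n y z) (M1l hc y z) (M1n z x) (M1l hc z x)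
  refine le_trans ?_ h2
  set G : V → V → ℝ := fun x y => Mat c v κ one2 x y with hG
  set T : ℝ := ∑ x, ∑ y, G x y with hT
  have h3 : ∑ x, ∑ y, ∑ z, (G x y + G y z + G z x - 2) = 3 * ((Fintype.card V : ℝ) * T) - 2 * (Fintype.card V : ℝ) ^ 3 := by
    have h5 : ∑ x, ∑ y, ∑ z, (G x y + G y z + G z x - 2) =
        (∑ x, ∑ y, ∑ _z : V, G x y) + (∑ _x : V, ∑ y, ∑ z, G y z) + (∑ x, ∑ _y : V, ∑ z, G z x) -
          ∑ _x : V, ∑ _y : V, ∑ _z : V, (2:ℝ) := by
      simp only [Finset.sum_sub_distrib, Finset.sum_add_distrib]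
    have hA : ∑ x, ∑ y, ∑ _z : V, G x y = (Fintype.card V : ℝ) * T := by
      simp only [Finset.sum_const, Finset.card_univ, nsmul_eq_mul, ← Finset.mul_sum]
      rfl
    have hB : ∑ _x : V, ∑ y, ∑ z, G y z = (Fintype.card V : ℝ) * T := by
      rw [Finset.sum_const, Finset.card_univ, nsmul_eq_mul]
    have hC : ∑ x, ∑ _y : V, ∑ z, G z x = (Fintype.card V : ℝ) * T := by
      have h6 : ∀ x : V, ∑ _y : V, ∑ z, G z x = (Fintype.card V : ℝ) * ∑ z, G z x := by
        intro x; rw [Finset.sum_const, Finset.card_univ, nsmul_eq_mul]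
      simp_rw [h6]
      rw [← Finset.mul_sum, Finset.sum_comm]
    have hD : ∑ _x : V, ∑ _y : V, ∑ _z : V, (2:ℝ) = 2 * (Fintype.card V : ℝ) ^ 3 := by
      simp only [Finset.sum_const, Finset.card_univ, nsmul_eq_mul]
      ring
    rw [h5, hA, hB, hC, hD]
    ring
  have hn1 : 1 ≤ (Fintype.card V : ℝ) := by
    have : 0 < Fintype.card V := Fintype.card_pos_iff.2 ⟨v⟩
    exact_mod_cast this
  have h4 : ((Fintype.card V : ℝ) - 1) * ((Fintype.card V : ℝ) - 3 - κ * (Fintype.card V : ℝ)) ≤ T := by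
    have h5 : ∀ x ∈ univ.erase v, (Fintype.card V : ℝ) - 3 - κ * (Fintype.card V : ℝ) ≤ ∑ y, G x y := by
      intro x hx
      have hx' : x ≠ v := by simpa using hx
      have h6 := sum_ya_ge (v := v) hc hκ hx'
      simpa [hG, Mat, one2] using h6
    have h7 : ∑ x ∈ univ.erase v, ((Fintype.card V : ℝ) - 3 - κ * (Fintype.card V : ℝ)) ≤ ∑ x ∈ univ.erase v, ∑ y, G x y :=
      Finset.sum_le_sum h5
    have h8 : ∑ x ∈ univ.erase v, ∑ y, G x y ≤ T :=
      Finset.sum_le_sum_of_subset_of_nonneg (Finset.subset_univ _)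
        (fun x _ _ => Finset.sum_nonneg fun y _ => M1n x y)
    rw [Finset.sum_const, nsmul_eq_mul, Finset.card_erase_of_mem (mem_univ _), Finset.card_univ,
      Nat.cast_sub (by exact_mod_cast hn1)] at h7
    push_cast at h7
    linarith
  rw [h3]
  have h9 : 0 ≤ κ * (Fintype.card V : ℝ) ^ 2 := by positivity
  nlinarith [mul_le_mul_of_nonneg_left h4 (N_nonneg (V := V))]

end

end Pool.Agent.TH437.SP
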