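import Pool.Agent.TH437.SP.Frac

/-!
# Spiders with one or two subdivided edges
-/

set_option autoImplicit false
set_option linter.unusedSectionVars false

namespace Pool.Agent.TH437.SP

open Finset

section
variable {V K : Type} [Fintype V] [DecidableEq V] {c : V → V → K} {v : V}

theorem closed_empty (c : V → V → K) (v : V) : Closed c v ∅ := by
  refine ⟨?_, ?_, ?_, ?_, ?_, ?_, ?_⟩ <;> intro p hp <;> simp at hp

/-- one pair with a new colour -/
theorem closed_one {x y : V} (hx : x ≠ v) (hy : y ≠ v) (hxy : x ≠ y)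
    (hn : ¬ Old c v (c x y)) : Closed c v {(x, y)} := by
  refine ⟨?_, ?_, ?_, ?_, ?_, ?_, ?_⟩ <;> intro p hp <;> rw [Finset.mem_singleton] at hp <;>
    subst hp
  · exact hx
  · exact hy
  · intro q hq _; rw [Finset.mem_singleton] at hq; exact hq.symm
  · intro q hq _; rw [Finset.mem_singleton] at hq; exact hq.symm
  · intro q hq; rw [Finset.mem_singleton] at hq; subst hq; exact hxy
  · intro q hq _; rw [Finset.mem_singleton] at hq; exact hq.symm
  · intro h; exact absurd h hn

/-- two pairs -/
theorem closed_two {x y p q : V} (hx : x ≠ v) (hy : y ≠ v) (hp : p ≠ v) (hq : q ≠ v)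
    (hxy : x ≠ y) (hpq : p ≠ q) (hxp : x ≠ p) (hxq : x ≠ q) (hyp : y ≠ p) (hyq : y ≠ q)
    (hcol : c x y ≠ c p q)
    (h1 : Old c v (c x y) → c x y = c v x ∨ c x y = c v p)
    (h2 : Old c v (c p q) → c p q = c v x ∨ c p q = c v p) :
    Closed c v {(x, y), (p, q)} ∧ ({(x, y), (p, q)} : Finset (V × V)).card = 2 := by
  have hm : ∀ r, r ∈ ({(x, y), (p, q)} : Finset (V × V)) ↔ r = (x, y) ∨ r = (p, q) := by
    intro r; simp
  refine ⟨⟨?_, ?_, ?_, ?_, ?_, ?_, ?_⟩, ?_⟩
  · intro r hr
    rcases (hm r).1 hr with rfl | rfl <;> assumption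
  · intro r hr
    rcases (hm r).1 hr with rfl | rfl <;> assumption
  · intro r hr s hs he
    rcases (hm r).1 hr with rfl | rfl <;> rcases (hm s).1 hs with rfl | rfl <;> simp_all
  · intro r hr s hs he
    rcases (hm r).1 hr with rfl | rfl <;> rcases (hm s).1 hs with rfl | rfl <;> simp_all
  · intro r hr s hs he
    rcases (hm r).1 hr with rfl | rfl <;> rcases (hm s).1 hs with rfl | rfl <;> simp_all
  · intro r hr s hs he
    rcases (hm r).1 hr with rfl | rfl <;> rcases (hm s).1 hs with rfl | rfl <;> simp_all
  · intro r hr ho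
    rcases (hm r).1 hr with rfl | rfl
    · rcases h1 ho with h | h
      · exact ⟨(x, y), (hm _).2 (Or.inl rfl), h.symm⟩
      · exact ⟨(p, q), (hm _).2 (Or.inr rfl), h.symm⟩
    · rcases h2 ho with h | h
      · exact ⟨(x, y), (hm _).2 (Or.inl rfl), h.symm⟩
      · exact ⟨(p, q), (hm _).2 (Or.inr rfl), h.symm⟩
  · rw [Finset.card_pair]
    intro h
    exact hxp (congrArg Prod.fst h)

/-- in a complete graph of odd order every colour misses a vertex -/
theorem exists_missing (hc : PC c) (hodd : Odd (Fintype.card V)) (γ : K) :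
    ∃ v, ¬ Old c v γ := by
  by_contra h
  push Not at h
  choose g hg using h
  have h1 : ∑ _x : V, (1 : ZMod 2) = 0 := by
    refine Finset.sum_involution (fun x _ => g x) ?_ ?_ ?_ ?_
    · intro a _; decide
    · intro a _ _; exact (hg a).1
    · intro a _; exact mem_univ _
    · intro a _
      refine hc.proper (g a) (g (g a)) a (hg (g a)).1.symm (hg a).1 ?_
      rw [(hg (g a)).2, hc.symm (g a) a, (hg a).2]
  rw [Finset.sum_const, Finset.card_univ, nsmul_eq_mul, mul_one] at h1
  rw [ZMod.natCast_eq_zero_iff] at h1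
  obtain ⟨k, hk⟩ := hodd
  omega

/-- `t = 1`, odd order -/
theorem one_odd (hc : PC c) (hodd : Odd (Fintype.card V)) (h3 : 3 ≤ Fintype.card V) :
    ∃ (v : V) (P : Finset (V × V)), Closed c v P ∧ P.card = 1 := by
  obtain ⟨x, y, hxy⟩ := Fintype.exists_pair_of_one_lt_card (by omega : 1 < Fintype.card V)
  obtain ⟨v, hv⟩ := exists_missing hc hodd (c x y)
  have hx : x ≠ v := by
    rintro rfl
    exact hv ⟨y, hxy.symm, rfl⟩
  have hy : y ≠ v := by
    rintro rfl
    exact hv ⟨x, hxy, hc.symm _ _⟩
  exact ⟨v, {(x, y)}, closed_one hx hy hxy hv, by simp⟩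

/-- a colour missing somewhere gives two pairs, for large order -/
theorem two_missing (hc : PC c) (hn : 30 ≤ Fintype.card V) {v x y : V}
    (hx : x ≠ v) (hy : y ≠ v) (hxy : x ≠ y) (hnew : ¬ Old c v (c x y)) :
    ∃ (v : V) (P : Finset (V × V)), Closed c v P ∧ P.card = 2 := by
  classical
  by_contra hno
  push Not at hno
  -- (star): the colour `c v x` appears at few vertices
  have star : ∀ v x y : V, x ≠ v → y ≠ v → x ≠ y → ¬ Old c v (c x y) →
      (univ.filter (fun u => Old c u (c v x))).card ≤ 4 := by
    intro v x y hx hy hxy hnew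
    have h1 : ∀ p q : V, p ≠ q → p ≠ v → p ≠ x → p ≠ y → q ≠ v → q ≠ x → q ≠ y →
        c p q ≠ c v x := by
      intro p q hpq hpv hpx hpy hqv hqx hqy hcol
      have h2 : c x y ≠ c p q := by
        intro h
        exact hnew ⟨x, hx, by rw [h, hcol]⟩
      obtain ⟨h3, h4⟩ := closed_two (c := c) (v := v) hx hy hpv hqv hxy hpq hpx.symm hqx.symm
        hpy.symm hqy.symm h2 (fun h => absurd h hnew) (fun _ => Or.inl hcol)
      exact hno v _ h3 h4
    -- the partner of `y`
    have h5 : ∃ w, ∀ u, Old c u (c v x) → u = v ∨ u = x ∨ u = y ∨ u = w := by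
      by_cases hyo : Old c y (c v x)
      · obtain ⟨w, hwy, hw⟩ := hyo
        refine ⟨w, ?_⟩
        rintro u ⟨u', hu', hcol⟩
        by_cases e1 : u = v
        · exact Or.inl e1
        by_cases e2 : u = x
        · exact Or.inr (Or.inl e2)
        by_cases e3 : u = y
        · exact Or.inr (Or.inr (Or.inl e3))
        right; right; right
        by_cases f1 : u' = v
        · exfalso
          rw [f1] at hcol
          exact e2 (hc.proper v u x (Ne.symm e1) hx.symm (by rw [hc.symm v u, hcol]))
        by_cases f2 : u' = x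
        · exfalso
          rw [f2] at hcol
          exact e1 (hc.proper x u v (Ne.symm e2) hx (by rw [hc.symm x u, hcol, hc.symm]))
        by_cases f3 : u' = y
        · rw [f3] at hcol
          exact hc.proper y u w (Ne.symm e3) hwy.symm (by rw [hc.symm y u, hcol, hw])
        · exact absurd hcol (h1 u u' hu'.symm e1 e2 e3 f1 f2 f3)
      · refine ⟨v, ?_⟩
        rintro u ⟨u', hu', hcol⟩
        by_cases e1 : u = v
        · exact Or.inl e1
        by_cases e2 : u = x
        · exact Or.inr (Or.inl e2)
        by_cases e3 : u = y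
        · exact Or.inr (Or.inr (Or.inl e3))
        exfalso
        by_cases f1 : u' = v
        · rw [f1] at hcol
          exact e2 (hc.proper v u x (Ne.symm e1) hx.symm (by rw [hc.symm v u, hcol]))
        by_cases f2 : u' = x
        · rw [f2] at hcol
          exact e1 (hc.proper x u v (Ne.symm e2) hx (by rw [hc.symm x u, hcol, hc.symm]))
        by_cases f3 : u' = y
        · rw [f3] at hcol
          exact hyo ⟨u, e3, by rw [hc.symm y u, hcol]⟩
        · exact absurd hcol (h1 u u' hu'.symm e1 e2 e3 f1 f2 f3)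
    obtain ⟨w, hw⟩ := h5
    have h6 : univ.filter (fun u => Old c u (c v x)) ⊆ {v, x, y, w} := by
      intro u hu
      simp only [Finset.mem_filter, Finset.mem_univ, true_and] at hu
      simp only [Finset.mem_insert, Finset.mem_singleton]
      exact hw u hu
    exact (Finset.card_le_card h6).trans Finset.card_le_four
  -- small colours
  set Sm : V → V → Prop := fun p q => (univ.filter (fun u => Old c u (c p q))).card ≤ 4 with hSm
  have prop1 : ∀ p q z : V, p ≠ q → Sm p q → z ∉ univ.filter (fun u => Old c u (c p q)) →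
      z ≠ p → z ≠ q → Sm z q := by
    intro p q z hpq _ hz hzp hzq
    have h1 : ¬ Old c z (c q p) := by
      intro h
      apply hz
      simp only [Finset.mem_filter, Finset.mem_univ, true_and]
      rwa [hc.symm p q]
    exact star z q p hzq.symm hzp.symm hpq.symm h1
  have hvx : Sm v x := star v x y hx hy hxy hnew
  -- choose `p₁` with `c p₁ v` small
  have pick : ∀ F : Finset V, F.card < 30 → ∃ z, z ∉ F := by
    intro F hF
    by_contra h
    push Not at h
    have : F = univ := Finset.eq_univ_of_forall h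
    rw [this, Finset.card_univ] at hF
    omega
  have hxv : Sm x v := by
    simp only [hSm] at hvx ⊢
    rwa [hc.symm x v]
  have far : ∀ F : Finset V, F.card ≤ 20 → ∃ p z : V, p ∉ F ∧ z ∉ F ∧ p ≠ z ∧ Sm z p := by
    intro F hF
    set F1 : Finset V := F ∪ univ.filter (fun u => Old c u (c x v)) ∪ {x, v} with hF1
    have hF1c : F1.card < 30 := by
      have h1 : F1.card ≤ (F ∪ univ.filter (fun u => Old c u (c x v))).card +
          ({x, v} : Finset V).card := by
        rw [hF1]; exact Finset.card_union_le _ _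
      have h2 := Finset.card_union_le F (univ.filter (fun u => Old c u (c x v)))
      have h3 : ({x, v} : Finset V).card ≤ 2 := Finset.card_le_two
      have h4 : (univ.filter (fun u => Old c u (c x v))).card ≤ 4 := hxv
      omega
    obtain ⟨p, hp⟩ := pick F1 hF1c
    simp only [hF1, Finset.mem_union, Finset.mem_insert, Finset.mem_singleton, not_or] at hp
    have hpv : Sm p v := prop1 x v p hx hxv hp.1.2 hp.2.1 hp.2.2
    have hvp : Sm v p := by
      simp only [hSm] at hpv ⊢
      rwa [hc.symm v p]
    set F2 : Finset V := F ∪ univ.filter (fun u => Old c u (c v p)) ∪ {v, p} with hF2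
    have hF2c : F2.card < 30 := by
      have h1 : F2.card ≤ (F ∪ univ.filter (fun u => Old c u (c v p))).card +
          ({v, p} : Finset V).card := by
        rw [hF2]; exact Finset.card_union_le _ _
      have h2 := Finset.card_union_le F (univ.filter (fun u => Old c u (c v p)))
      have h3 : ({v, p} : Finset V).card ≤ 2 := Finset.card_le_two
      have h4 : (univ.filter (fun u => Old c u (c v p))).card ≤ 4 := hvp
      omega
    obtain ⟨z, hz⟩ := pick F2 hF2c
    simp only [hF2, Finset.mem_union, Finset.mem_insert, Finset.mem_singleton, not_or] at hz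
    exact ⟨p, z, hp.1.1, hz.1.1, fun h => hz.2.2 h.symm,
      prop1 v p z (fun h => hp.2.2 h.symm) hvp hz.1.2 hz.2.1 hz.2.2⟩
  obtain ⟨p, z, _, _, hpz, hs1⟩ := far ∅ (by simp)
  have hs1' : (univ.filter (fun u => Old c u (c z p))).card ≤ 4 := hs1
  obtain ⟨p', z', hp', hz', hpz', hs2⟩ := far ({p, z} ∪ univ.filter (fun u => Old c u (c z p)))
    (by
      have h1 := Finset.card_union_le ({p, z} : Finset V) (univ.filter (fun u => Old c u (c z p)))
      have h3 : ({p, z} : Finset V).card ≤ 2 := Finset.card_le_two
      omega)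
  have hs2' : (univ.filter (fun u => Old c u (c z' p'))).card ≤ 4 := hs2
  simp only [Finset.mem_union, Finset.mem_insert, Finset.mem_singleton, Finset.mem_filter,
    Finset.mem_univ, true_and, not_or] at hp' hz'
  obtain ⟨u, hu⟩ := pick ({p, z, p', z'} ∪ univ.filter (fun u => Old c u (c z p)) ∪
      univ.filter (fun u => Old c u (c z' p'))) (by
      have h1 := Finset.card_union_le ({p, z, p', z'} ∪ univ.filter (fun u => Old c u (c z p)))
        (univ.filter (fun u => Old c u (c z' p')))
      have h2 := Finset.card_union_le ({p, z, p', z'} : Finset V)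
        (univ.filter (fun u => Old c u (c z p)))
      have h3 : ({p, z, p', z'} : Finset V).card ≤ 4 := Finset.card_le_four
      omega)
  simp only [Finset.mem_union, Finset.mem_insert, Finset.mem_singleton, Finset.mem_filter,
    Finset.mem_univ, true_and, not_or] at hu
  have hcol : c z p ≠ c z' p' := by
    intro h
    exact hp'.2 ⟨z', hpz'.symm, by rw [hc.symm p' z', h]⟩
  obtain ⟨⟨⟨e1, e2, e3, e4⟩, e5⟩, e6⟩ := hu
  obtain ⟨h3, h4⟩ := closed_two (c := c) (v := u) (x := z) (y := p) (p := z') (q := p')
    (fun h => e2 h.symm) (fun h => e1 h.symm) (fun h => e4 h.symm) (fun h => e3 h.symm)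
    hpz.symm hpz'.symm (fun h => hz'.1.2 h.symm) (fun h => hp'.1.2 h.symm)
    (fun h => hz'.1.1 h.symm) (fun h => hp'.1.1 h.symm) hcol
    (fun h => absurd h e5) (fun h => absurd h e6)
  exact hno u _ h3 h4

end

end Pool.Agent.TH437.SP
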